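import Pool.Agent.H920R2.Cu6
import Pool.Agent.H920R2.Zp4
import Pool.Agent.H920R2.Trans
import Pool.Agent.H920R2.Fol5
import Pool.Agent.H920R2.Fol7

set_option autoImplicit false
set_option linter.unusedSectionVars false

open AlgebraicGeometry CategoryTheory Pool.Agent.H920R2

universe u v

namespace Pool.Agent.H519R3.RS

/-- A multiplicative filtration of a ring by ideals. -/
structure IsFilt {B : Type u} [CommRing B] (F : ℕ → Ideal B) : Prop where
  zero : F 0 = ⊤
  anti : ∀ a b, a ≤ b → F b ≤ F a
  mul : ∀ a b, F a * F b ≤ F (a + b)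

section rees

variable {k B L : Type u} [Field k] [CommRing B] [Algebra k B] [Field L] [Algebra k L]
  (g : B →ₐ[k] L) {F : ℕ → Ideal B} (hF : IsFilt F)

/-- The extended Rees algebra of a filtration, inside the Laurent polynomials over a field. -/
def rG (hF : IsFilt F) : Subalgebra k (LP L) where
  carrier := {f | ∀ d : ℤ, ∃ b ∈ F d.toNat, g b = f.coeff d}
  mul_mem' := by
    intro f g' hf hg d
    rw [eq_sum_hm f, Finset.sum_mul, AddMonoidAlgebra.coeff_sum, Finsupp.finsetSum_apply]
    have h1 : ∀ a : ℤ, ∃ b ∈ F d.toNat, g b = (hm a (f.coeff a) * g').coeff d := by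
      intro a
      obtain ⟨b, hb, hb'⟩ := hf a
      obtain ⟨c, hc, hc'⟩ := hg (d - a)
      refine ⟨b * c, ?_, by rw [coeff_hm_mul, map_mul, hb', hc']⟩
      exact hF.anti _ _ (by omega) (hF.mul _ _ (Ideal.mul_mem_mul hb hc))
    choose b hb hb' using h1
    refine ⟨∑ a ∈ f.coeff.support, b a, Ideal.sum_mem _ fun a _ => hb a, ?_⟩
    rw [map_sum]
    exact Finset.sum_congr rfl fun a _ => hb' a
  add_mem' := by
    intro f g' hf hg d
    obtain ⟨b, hb, hb'⟩ := hf d
    obtain ⟨c, hc, hc'⟩ := hg d
    exact ⟨b + c, Ideal.add_mem _ hb hc, by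
      rw [AddMonoidAlgebra.coeff_add, Finsupp.add_apply, map_add, hb', hc']⟩
  algebraMap_mem' := by
    intro r d
    rw [algebraMap_LP, coeff_hm]
    split_ifs with h
    · subst h
      refine ⟨algebraMap k B r, ?_, AlgHom.commutes _ _⟩
      change _ ∈ F 0
      rw [hF.zero]
      trivial
    · exact ⟨0, Ideal.zero_mem _, map_zero _⟩

lemma mem_rG {f : LP L} : f ∈ rG g hF ↔ ∀ d : ℤ, ∃ b ∈ F d.toNat, g b = f.coeff d :=
  Iff.rfl

lemma hm_mem_rG {d : ℤ} {b : B} (hb : b ∈ F d.toNat) : hm d (g b) ∈ rG g hF := by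
  intro e
  rw [coeff_hm]
  split_ifs with h
  · subst h
    exact ⟨b, hb, rfl⟩
  · exact ⟨0, Ideal.zero_mem _, map_zero _⟩

lemma gr_rG : Gr (rG g hF) := by
  intro f hf d
  obtain ⟨b, hb, hb'⟩ := hf d
  rw [← hb']
  exact hm_mem_rG g hF hb

lemma s_rG : hm (-1) 1 ∈ rG g hF := by
  have h1 := hm_mem_rG g hF (d := -1) (b := 1) (by
    change _ ∈ F 0
    rw [hF.zero]; trivial)
  rwa [map_one] at h1

lemma b_rG (b : B) : hm 0 (g b) ∈ rG g hF :=
  hm_mem_rG g hF (by
    change _ ∈ F 0
    rw [hF.zero]; trivial)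

lemma of_hm_mem_rG {d : ℤ} {a : L} (h : hm d a ∈ rG g hF) :
    ∃ b ∈ F d.toNat, g b = a := by
  obtain ⟨b, hb, hb'⟩ := h d
  rw [coeff_hm_same] at hb'
  exact ⟨b, hb, hb'⟩

/-- The extended Rees algebra of a filtration, inside the Laurent polynomials. -/
def reesZ (k : Type u) [Field k] [Algebra k B] (hF : IsFilt F) :
    Subalgebra k (AddMonoidAlgebra B ℤ) where
  carrier := {f | ∀ d : ℤ, f.coeff d ∈ F d.toNat}
  mul_mem' := by
    classical
    intro f g hf hg d
    rw [← AddMonoidAlgebra.sum_coeff_single f, Finsupp.sum, Finset.sum_mul,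
      AddMonoidAlgebra.coeff_sum, Finsupp.finsetSum_apply]
    refine Ideal.sum_mem _ fun a _ => ?_
    have h1 : (AddMonoidAlgebra.single a (f.coeff a) * g).coeff d =
        f.coeff a * g.coeff (d - a) :=
      AddMonoidAlgebra.coeff_single_mul_eq_mul_coeff _ (by intro m' _; omega)
    rw [h1]
    exact hF.anti _ _ (by omega) (hF.mul _ _ (Ideal.mul_mem_mul (hf a) (hg (d - a))))
  add_mem' := by
    intro f g hf hg d
    rw [AddMonoidAlgebra.coeff_add, Finsupp.add_apply]
    exact Ideal.add_mem _ (hf d) (hg d)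
  algebraMap_mem' := by
    classical
    intro r d
    have h0 : algebraMap k (AddMonoidAlgebra B ℤ) r =
      AddMonoidAlgebra.single 0 (algebraMap k B r) := rfl
    rw [h0, AddMonoidAlgebra.coeff_single, Finsupp.single_apply]
    split_ifs with h
    · subst h
      change _ ∈ F 0
      rw [hF.zero]
      trivial
    · exact Ideal.zero_mem _

lemma single_mem_reesZ {d : ℕ} {b : B} (hb : b ∈ F d) :
    AddMonoidAlgebra.single (d : ℤ) b ∈ reesZ k hF := by
  classical
  intro e
  rw [AddMonoidAlgebra.coeff_single, Finsupp.single_apply]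
  split_ifs with h
  · subst h
    rw [Int.toNat_natCast]
    exact hb
  · exact Ideal.zero_mem _

/-- The weighted blowup of a filtration is smooth: its extended Rees algebra is of finite type and
smooth outside the vertex. -/
structure Good (k : Type u) [Field k] [Algebra k B] (hF : IsFilt F) : Prop where
  ft : Algebra.FiniteType k (reesZ k hF)
  sm : ∀ (d : ℕ) (b : B) (hb : b ∈ F d), 0 < d → b ≠ 0 → Algebra.Smooth k
    (Localization.Away (⟨AddMonoidAlgebra.single (d : ℤ) b, single_mem_reesZ hF hb⟩ : reesZ k hF))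

/-- The embedded version of `Good`. -/
structure GoodE (hF : IsFilt F) : Prop where
  ft : Algebra.FiniteType k (rG g hF)
  sm : ∀ (e : ℕ) (η : L) (he : hm e η ∈ rG g hF), 0 < e → η ≠ 0 →
    Algebra.Smooth k (loc (rG g hF) (hm e η) he)

end rees

section away

variable {k L : Type u} [Field k] [Field L] [Algebra k L]

/-- Localizations of algebras isomorphic to subalgebras of the Laurent polynomials. -/
lemma smooth_away_iff {S : Type u} [CommRing S] [Algebra k S] (R : Subalgebra k (LP L))
    (e : S ≃ₐ[k] R) (x : S) (hx : IsUnit ((e x : R) : LP L)) :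
    Algebra.Smooth k (Localization.Away x) ↔
      Algebra.Smooth k (loc R (e x : LP L) (e x).2) := by
  obtain ⟨y, hy⟩ := hx.exists_right_inv
  have hle := le_loc R (e x : LP L) (e x).2
  let A := loc R (e x : LP L) (e x).2
  let _ : Algebra S A := ((Subalgebra.inclusion hle).comp e.toAlgHom).toRingHom.toAlgebra
  have _ : IsScalarTower k S A := IsScalarTower.of_algebraMap_eq fun r => by
    apply Subtype.ext
    change _ = ((e (algebraMap k S r) : R) : LP L)
    rw [AlgEquiv.commutes]
    rfl
  have hmap : ∀ s : S, ((algebraMap S A s : A) : LP L) = (e s : R) := fun s => rfl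
  have hloc : IsLocalization.Away x A := by
    refine IsLocalization.Away.mk x ?_ ?_ ?_
    · refine IsUnit.of_mul_eq_one ⟨y, inv_mem_loc R _ y (e x).2 hy⟩ ?_
      apply Subtype.ext
      exact hy
    · rintro ⟨f, n, hn⟩
      refine ⟨n, e.symm ⟨(e x : LP L) ^ n * f, hn⟩, ?_⟩
      apply Subtype.ext
      change f * ((algebraMap S A x : A) : LP L) ^ n = ((e (e.symm _) : R) : LP L)
      rw [hmap, AlgEquiv.apply_symm_apply, mul_comm]
    · intro a b hab
      refine ⟨0, ?_⟩
      have h3 : ((algebraMap S A a : A) : LP L) = ((algebraMap S A b : A) : LP L) :=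
        congrArg Subtype.val hab
      rw [hmap, hmap] at h3
      rw [e.injective (Subtype.ext h3)]
  have e1 : Localization.Away x ≃ₐ[k] A :=
    (IsLocalization.algEquiv (Submonoid.powers x) (Localization.Away x) A).restrictScalars k
  exact ⟨fun h => Algebra.Smooth.of_equiv e1, fun h => Algebra.Smooth.of_equiv e1.symm⟩

end away

section iff

variable {k B L : Type u} [Field k] [CommRing B] [Algebra k B] [Field L] [Algebra k L]
  (g : B →ₐ[k] L) {F : ℕ → Ideal B} (hF : IsFilt F)

lemma map_injective (hinj : Function.Injective g) :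
    Function.Injective (AddMonoidAlgebra.mapAlgHom (R := k) ℤ g) := by
  intro a b hab
  apply AddMonoidAlgebra.coeff_injective
  ext d
  apply hinj
  have h1 := congrArg (fun f : LP L => f.coeff d) hab
  simpa [AddMonoidAlgebra.coeff_mapAlgHom] using h1

lemma map_reesZ : (reesZ k hF).map (AddMonoidAlgebra.mapAlgHom (R := k) ℤ g) = rG g hF := by
  classical
  apply le_antisymm
  · rintro _ ⟨f, hf, rfl⟩ d
    refine ⟨f.coeff d, hf d, ?_⟩
    exact (AddMonoidAlgebra.coeff_mapAlgHom _ _ _).symm
  · intro f hf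
    choose b hb hb' using hf
    rw [eq_sum_hm f]
    refine Subalgebra.sum_mem _ fun d _ => ?_
    refine ⟨AddMonoidAlgebra.single d (b d), ?_, ?_⟩
    · intro e
      rw [AddMonoidAlgebra.coeff_single, Finsupp.single_apply]
      split_ifs with h
      · subst h
        exact hb d
      · exact Ideal.zero_mem _
    · change AddMonoidAlgebra.mapAlgHom (R := k) ℤ g _ = _
      rw [AddMonoidAlgebra.mapAlgHom_single, hb' d]
      rfl

/-- The two versions of the Rees algebra are isomorphic. -/
noncomputable def eqv (hinj : Function.Injective g) : reesZ k hF ≃ₐ[k] rG g hF :=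
  ((reesZ k hF).equivMapOfInjective _ (map_injective g hinj)).trans
    (Subalgebra.equivOfEq _ _ (map_reesZ g hF))

lemma coe_eqv (hinj : Function.Injective g) (x : reesZ k hF) :
    ((eqv g hF hinj x : rG g hF) : LP L) = AddMonoidAlgebra.mapAlgHom (R := k) ℤ g x := rfl

theorem good_iff (hinj : Function.Injective g) : Good k hF ↔ GoodE g hF := by
  have hs : ∀ (d : ℕ) (b : B) (hb : b ∈ F d), ((eqv g hF hinj
      ⟨AddMonoidAlgebra.single (d : ℤ) b, single_mem_reesZ hF hb⟩ : rG g hF) : LP L) =
      hm d (g b) := by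
    intro d b hb
    rw [coe_eqv]
    exact AddMonoidAlgebra.mapAlgHom_single _ _ _
  have key : ∀ (R : Subalgebra k (LP L)) (x y : LP L) (hx : x ∈ R) (hy : y ∈ R), x = y →
      (Algebra.Smooth k (loc R x hx) ↔ Algebra.Smooth k (loc R y hy)) := by
    rintro R x y hx hy rfl
    exact Iff.rfl
  constructor
  · intro h
    refine ⟨?_, ?_⟩
    · have := h.ft
      exact Algebra.FiniteType.equiv this (eqv g hF hinj)
    · intro e η he he0 hη
      obtain ⟨b, hb, hbη⟩ := of_hm_mem_rG g hF he
      rw [Int.toNat_natCast] at hb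
      have hb0 : b ≠ 0 := by
        intro h
        apply hη
        rw [← hbη, h, map_zero]
      have h1 := h.sm e b hb he0 hb0
      rw [smooth_away_iff (rG g hF) (eqv g hF hinj) _
        (by rw [hs e b hb]; exact isUnit_hm (by rw [hbη]; exact hη))] at h1
      exact (key _ _ _ _ _ (by rw [hs e b hb, hbη])).1 h1
  · intro h
    refine ⟨?_, ?_⟩
    · have := h.ft
      exact Algebra.FiniteType.equiv this (eqv g hF hinj).symm
    · intro d b hb hd hb0
      have hgb : g b ≠ 0 := by
        intro h
        exact hb0 ((map_eq_zero_iff g hinj).1 h)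
      rw [smooth_away_iff (rG g hF) (eqv g hF hinj) _ (by rw [hs d b hb]; exact isUnit_hm hgb)]
      have h1 := h.sm d (g b) (hm_mem_rG g hF (by rw [Int.toNat_natCast]; exact hb)) hd hgb
      exact (key _ _ _ _ _ (hs d b hb).symm).1 h1

end iff

end Pool.Agent.H519R3.RS
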