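import Pool.Agent.H519R3.RS.Tower
import Pool.Agent.H920R2.We2

set_option autoImplicit false
set_option linter.unusedSectionVars false

open AlgebraicGeometry CategoryTheory Pool.Agent.H920R2

universe u v

namespace Pool.Agent.H519R3.RS

variable {k B : Type u} [Field k] [CommRing B] [IsDomain B] [Algebra k B]

/-- Regular weighted centres in smooth varieties have smooth weighted blowups. -/
theorem good_of_centre [Algebra.Smooth k B] {F : ℕ → Ideal B} (hF : IsFilt F)
    (hR : RegularWeightedCentre k F) : Good k hF := by
  let L := FractionRing B
  let g : B →ₐ[k] L := IsScalarTower.toAlgHom k B L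
  have hinj : Function.Injective g := IsFractionRing.injective B L
  have heq : rG g hF = reesF g hR := by
    ext f
    exact Iff.rfl
  have hsm : Algebra.Smooth k (rG g hF) := by
    rw [heq]
    exact smooth_reesF g hinj hR inferInstance
  refine (good_iff g hF hinj).2 ⟨inferInstance, ?_⟩
  intro e η he he0 hη
  exact smooth_loc hsm _ (isUnit_hm hη)

end Pool.Agent.H519R3.RS
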