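import Pool.Agent.H519R3.RS.Base

set_option autoImplicit false
set_option linter.unusedSectionVars false

open AlgebraicGeometry CategoryTheory Pool.Agent.H920R2

universe u v

namespace Pool.Agent.H519R3.RS

section clo

variable {k L : Type u} [Field k] [Field L] [Algebra k L]

/-- The homogeneous elements of `R ⊓ F0` of positive degree with smooth localizations cover the
complement of the vertex of `R`. -/
def Fam (R F0 : Subalgebra k (LP L)) : Prop :=
  ∀ Q : Ideal R, Q.IsPrime →
    (∀ (e : ℕ) (η : L) (he : hm e η ∈ R), 0 < e → η ≠ 0 → hm e η ∈ F0 →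
      Algebra.Smooth k ↥(loc R (hm e η) he ⊓ F0) → (⟨hm e η, he⟩ : R) ∈ Q) →
    ∀ (d : ℕ) (a : L) (h : hm d a ∈ R), 0 < d → (⟨hm d a, h⟩ : R) ∈ Q

/-- Lying over for localizations of integral extensions. -/
lemma lying_over {R R' : Subalgebra k (LP L)} (hle : R' ≤ R)
    (hint : ∀ f ∈ R, IsIntegral R' f) (x : LP L) (hx : x ∈ R') (hu : IsUnit x)
    (Q : Ideal (loc R' x hx)) (hQ : Q.IsPrime) :
    ∃ P : Ideal R, P.IsPrime ∧ (⟨x, hle hx⟩ : R) ∉ P ∧
      ∀ (y : LP L) (hy : y ∈ R'), (⟨y, le_loc R' x hx hy⟩ : loc R' x hx) ∈ Q →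
        (⟨y, hle hy⟩ : R) ∈ P := by
  obtain ⟨z, hz⟩ := hu.exists_right_inv
  let A1 := loc R' x hx
  let A2 := loc R x (hle hx)
  have h12 : A1 ≤ A2 := by
    rintro f ⟨n, hn⟩
    exact ⟨n, hle hn⟩
  have hzA : z ∈ A1 := inv_mem_loc R' x z hx hz
  let _ : Algebra A1 A2 := (Subalgebra.inclusion h12).toRingHom.toAlgebra
  have hmap : ∀ s : A1, ((algebraMap A1 A2 s : A2) : LP L) = s := fun s => rfl
  have hI : Algebra.IsIntegral A1 A2 := by
    constructor
    rintro ⟨f, n, hn⟩
    obtain ⟨P, hP, hP0⟩ := hint _ hn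
    have h1 : IsIntegral A1 (⟨x ^ n * f, le_loc R x (hle hx) hn⟩ : A2) := by
      refine ⟨P.map (Subalgebra.inclusion (le_loc R' x hx)).toRingHom, hP.map _, ?_⟩
      rw [Polynomial.eval₂_map]
      have h2 : Function.Injective A2.val := Subtype.val_injective
      apply h2
      rw [map_zero, ← AlgHom.coe_toRingHom, Polynomial.hom_eval₂]
      exact hP0
    have h2 : (⟨f, n, hn⟩ : A2) = algebraMap A1 A2 (⟨z, hzA⟩ ^ n) *
        ⟨x ^ n * f, le_loc R x (hle hx) hn⟩ := by
      apply Subtype.ext
      change f = ((algebraMap A1 A2 (⟨z, hzA⟩ ^ n) : A2) : LP L) * (x ^ n * f)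
      rw [hmap]
      change f = z ^ n * (x ^ n * f)
      rw [← mul_assoc, ← mul_pow, mul_comm z, hz, one_pow, one_mul]
    rw [h2]
    exact isIntegral_algebraMap.mul h1
  have hker : RingHom.ker (algebraMap A1 A2) ≤ Q := by
    intro a ha
    have h1 : a = 0 := by
      apply Subtype.ext
      have h2 := congrArg Subtype.val (RingHom.mem_ker.1 ha)
      exact h2
    rw [h1]
    exact Q.zero_mem
  obtain ⟨P', hP', hPQ⟩ := Ideal.exists_ideal_over_prime_of_isIntegral_of_isDomain
    (S := A2) Q hker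
  let i : R →+* A2 := (Subalgebra.inclusion (le_loc R x (hle hx))).toRingHom
  refine ⟨P'.comap i, hP'.comap i, ?_, ?_⟩
  · intro h
    have h1 : i ⟨x, hle hx⟩ ∈ P' := h
    have h2 : (⟨z, h12 hzA⟩ : A2) * i ⟨x, hle hx⟩ = 1 := by
      apply Subtype.ext
      change z * x = 1
      rw [mul_comm]; exact hz
    apply hP'.ne_top
    rw [Ideal.eq_top_iff_one, ← h2]
    exact P'.mul_mem_left _ h1
  · intro y hy hyQ
    rw [← hPQ] at hyQ
    exact hyQ

/-- The localizations of the ring of invariants of a covered algebra are smooth. -/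
theorem smooth_loc_inf {R F0 : Subalgebra k (LP L)} (hfam : Fam R F0)
    (hint : ∀ f ∈ R, IsIntegral ↥(R ⊓ F0) f)
    (hinv : ∀ (d : ℤ) (a : L), hm d a ∈ F0 → hm (-d) a⁻¹ ∈ F0)
    (d : ℕ) (a : L) (h : hm d a ∈ R ⊓ F0) (hd : 0 < d) (ha : a ≠ 0) :
    Algebra.Smooth k (loc (R ⊓ F0) (hm d a) h) := by
  apply smooth_of_loc
  intro Q hQ
  obtain ⟨P, hP, hxP, hPQ⟩ := lying_over (inf_le_left : R ⊓ F0 ≤ R) hint (hm d a) h
    (isUnit_hm ha) Q hQ
  by_contra hcon
  push Not at hcon
  apply hxP
  refine hfam P hP ?_ d a _ hd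
  intro e η he he0 hη hF hsm
  have heR : hm e η ∈ R ⊓ F0 := ⟨he, hF⟩
  apply hPQ _ heR
  by_contra hnQ
  refine hcon (hm e η) (le_loc _ _ _ heR) (isUnit_hm hη) hnQ ?_
  -- the ring of invariants of the localization
  have h1 : loc R (hm e η) he ⊓ F0 = loc (R ⊓ F0) (hm e η) heR := by
    apply le_antisymm
    · rintro f ⟨⟨n, hn⟩, hf⟩
      exact ⟨n, hn, F0.mul_mem (F0.pow_mem hF n) hf⟩
    · rintro f ⟨n, hn, hn'⟩
      refine ⟨⟨n, hn⟩, ?_⟩
      have h2 : f = hm (-(e : ℤ)) η⁻¹ ^ n * (hm e η ^ n * f) := by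
        rw [← mul_assoc, ← mul_pow, hm_mul, neg_add_cancel, inv_mul_cancel₀ hη, hm_one, one_pow,
          one_mul]
      rw [h2]
      exact F0.mul_mem (F0.pow_mem (hinv _ _ hF) n) hn'
  rw [h1] at hsm
  have h2 := smooth_loc hsm (le_loc _ _ _ h) (isUnit_hm ha)
  have h3 : loc (loc (R ⊓ F0) (hm d a) h) (hm e η) (le_loc _ _ _ heR) =
      loc (loc (R ⊓ F0) (hm e η) heR) (hm d a) (le_loc _ _ _ h) := by
    apply le_antisymm
    · rintro f ⟨n, m, hn⟩
      refine ⟨m, n, ?_⟩
      have h4 : hm (e : ℤ) η ^ n * (hm (d : ℤ) a ^ m * f) =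
          hm (d : ℤ) a ^ m * (hm (e : ℤ) η ^ n * f) := by ring
      rw [h4]
      exact hn
    · rintro f ⟨m, n, hn⟩
      refine ⟨n, m, ?_⟩
      have h4 : hm (d : ℤ) a ^ m * (hm (e : ℤ) η ^ n * f) =
          hm (e : ℤ) η ^ n * (hm (d : ℤ) a ^ m * f) := by ring
      rw [h4]
      exact hn
  rw [h3]
  exact h2

end clo

section res

variable {k C L : Type u} [Field k] [CommRing C] [IsDomain C] [Algebra k C] [Field L]
  [Algebra k L] (g : C →ₐ[k] L) {F : ℕ → Ideal C} (hF : IsFilt F)

/-- **Resolution.** If the weighted blowup of a filtration of `C` is smooth, then `Spec C` has a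
resolution of singularities. -/
theorem hasResolution_goodE (hinj : Function.Injective g) (hG : GoodE g hF) (hne : F 1 ≠ ⊥) :
    HasResolution (X := Spec (CommRingCat.of C))
      (Spec.map (CommRingCat.ofHom (algebraMap k C))) := by
  classical
  set R := rG g hF with hR
  have hft := hG.ft
  have hRn : IsNoetherianRing R := Algebra.FiniteType.isNoetherianRing k R
  let S : Set R := {x | ∃ (e : ℕ) (η : L) (he : hm e η ∈ R), 0 < e ∧ η ≠ 0 ∧ x = ⟨hm e η, he⟩}
  have hfg : (Ideal.span S).FG := IsNoetherian.noetherian _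
  obtain ⟨T0, hT0S, hT0⟩ := (Submodule.fg_span_iff_fg_span_finset_subset S).1 hfg
  let T := {x // x ∈ T0}
  choose e η he he0 hη0 hxeq using fun t : T => hT0S t.2
  have hcov : Cover g g R ⊤ e η he := by
    refine
      { inj := hinj
        grR := gr_rG g hF
        grF := fun f _ d => trivial
        sR := s_rG g hF
        sF := trivial
        bR := b_rG g hF
        cR := fun f hf d => by obtain ⟨b, -, hb⟩ := hf d; exact ⟨b, hb.symm⟩
        gF := fun a => trivial
        gAB := fun a => ⟨a, rfl⟩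
        gBA := fun b _ => ⟨b, rfl⟩
        invF := fun d a h => trivial
        int := fun V hV b => hV b
        epos := he0
        η0 := hη0
        hF := fun t => trivial
        sm := fun t => by rw [inf_top_eq]; exact hG.sm (e t) (η t) (he t) (he0 t) (hη0 t)
        ft := hft
        pos := ?_
        rad := ?_ }
    · obtain ⟨a, ha, ha0⟩ := Submodule.exists_mem_ne_zero_of_ne_bot hne
      refine ⟨1, g a, one_pos, ?_, hm_mem_rG g hF (d := ((1 : ℕ) : ℤ)) (by
        rw [Int.toNat_natCast]; exact ha)⟩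
      intro h
      exact ha0 ((map_eq_zero_iff g hinj).1 h)
    · intro d a h hd
      refine ⟨1, ?_⟩
      rw [pow_one]
      by_cases ha : a = 0
      · have h1 : (⟨hm d a, h⟩ : R) = 0 := by
          apply Subtype.ext
          change hm (d : ℤ) a = 0
          rw [ha, hm_zero]
        rw [h1]
        exact Ideal.zero_mem _
      · have h1 : (⟨hm d a, h⟩ : R) ∈ Ideal.span S := Ideal.subset_span ⟨d, a, h, hd, ha, rfl⟩
        have h2 : (Ideal.span S : Ideal R) = Ideal.span (T0 : Set R) := hT0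
        rw [h2] at h1
        have h3 : Ideal.span (T0 : Set R) ≤ Ideal.span (Set.range fun t : T =>
            (⟨hm (e t) (η t), he t⟩ : R)) := by
          rw [Ideal.span_le]
          intro z hz
          refine Ideal.subset_span ⟨⟨z, hz⟩, ?_⟩
          exact (hxeq ⟨z, hz⟩).symm
        exact h3 h1
  exact hasResolution_of_cover hcov

include hF in
/-- The ring itself is of finite type. -/
lemma finiteType_goodE (hinj : Function.Injective g) (hG : GoodE g hF) :
    Algebra.FiniteType k C := by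
  classical
  have hft := hG.ft
  -- the quotient by the positive and negative degrees: evaluate the generators
  obtain ⟨s, hs⟩ := (Subalgebra.fg_iff_finiteType _).2 hft
  -- the components of the generators
  have hR : ∀ f ∈ rG g hF, ∀ d, f.coeff d ∈ g.range := by
    intro f hf d
    obtain ⟨b, -, hb⟩ := hf d
    exact ⟨b, hb⟩
  let G : Finset L := s.biUnion fun f => f.coeff.support.image f.coeff
  have hadj : ∀ f ∈ rG g hF, ∀ d, f.coeff d ∈ Algebra.adjoin k (G : Set L) := by
    let W : Subalgebra k (LP L) :=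
      { carrier := {f | ∀ d, f.coeff d ∈ Algebra.adjoin k (G : Set L)}
        mul_mem' := by
          intro f g' hf hg d
          rw [eq_sum_hm f, Finset.sum_mul, AddMonoidAlgebra.coeff_sum, Finsupp.finsetSum_apply]
          refine Subalgebra.sum_mem _ fun a _ => ?_
          rw [coeff_hm_mul]
          exact Subalgebra.mul_mem _ (hf _) (hg _)
        add_mem' := by
          intro f g' hf hg d
          rw [AddMonoidAlgebra.coeff_add, Finsupp.add_apply]
          exact Subalgebra.add_mem _ (hf d) (hg d)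
        algebraMap_mem' := by
          intro r d
          rw [algebraMap_LP, coeff_hm]
          split_ifs
          · exact Subalgebra.algebraMap_mem _ _
          · exact Subalgebra.zero_mem _ }
    have h1 : rG g hF ≤ W := by
      rw [← hs, Algebra.adjoin_le_iff]
      intro f hf d
      by_cases h0 : f.coeff d = 0
      · rw [h0]; exact Subalgebra.zero_mem _
      · refine Algebra.subset_adjoin ?_
        refine Finset.mem_coe.2 (Finset.mem_biUnion.2 ⟨f, hf, Finset.mem_image.2 ⟨d, ?_, rfl⟩⟩)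
        exact Finsupp.mem_support_iff.2 h0
    exact fun f hf d => h1 hf d
  have hrange : g.range = Algebra.adjoin k (G : Set L) := by
    apply le_antisymm
    · rintro _ ⟨b, rfl⟩
      have h1 := hadj _ (b_rG g hF b) 0
      rw [coeff_hm_same] at h1
      exact h1
    · rw [Algebra.adjoin_le_iff]
      intro x hx
      obtain ⟨f, hf, hx⟩ := Finset.mem_biUnion.1 (Finset.mem_coe.1 hx)
      obtain ⟨d, -, rfl⟩ := Finset.mem_image.1 hx
      have hfR : f ∈ rG g hF := by rw [← hs]; exact Algebra.subset_adjoin hf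
      exact hR f hfR d
  have h1 : Algebra.FiniteType k g.range :=
    (Subalgebra.fg_iff_finiteType _).1 ⟨G, hrange.symm⟩
  exact Algebra.FiniteType.equiv h1 (AlgEquiv.ofInjective g hinj).symm

end res

end Pool.Agent.H519R3.RS
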