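import Pool.Agent.H519R3.RS.Step

set_option autoImplicit false
set_option linter.unusedSectionVars false

open AlgebraicGeometry CategoryTheory Pool.Agent.H920R2

universe u v

namespace Pool.Agent.H519R3.RS

section dstep

variable {k L : Type u} [Field k] [Field L] [Algebra k L]

/-- The constants of the localization at a good element are smooth. -/
lemma smooth_good_fol {p : ℕ} (hp : p.Prime) (hpk : (p : k) = 0) (E' : Derivation k L L) (l : ℕ)
    (ψ : LP L) (hclosed : ∀ f, (tlD E' l)^[p] f = ψ * tlD E' l f) (R : Subalgebra k (LP L))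
    (hD : ∀ f ∈ R, tlD E' l f ∈ R) (e : ℕ) (η : L) (he : hm e η ∈ R) (hη : η ≠ 0)
    (hsm : Algebra.Smooth k (loc R (hm e η) he)) (y b : LP L) (hy : y ∈ R) (hb : b ∈ R)
    (hprod : hm e η = (y * tlD E' l b) ^ p) :
    Algebra.Smooth k ↥(loc R (hm e η) he ⊓ kerAlg (tlD E' l)) := by
  let D := tlD E' l
  have hpL : ((p : ℕ) : LP L) = 0 := by
    rw [← map_natCast (algebraMap k (LP L)), hpk, map_zero]
  have hDp : ∀ f : LP L, D (f ^ p) = 0 := by
    intro f
    rw [Derivation.leibniz_pow, nsmul_eq_mul, hpL, zero_mul]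
  have hDh : D (hm e η) = 0 := by rw [hprod]; exact hDp _
  have hDhn : ∀ n : ℕ, D (hm e η ^ n) = 0 := by
    intro n
    rw [Derivation.leibniz_pow, nsmul_eq_mul, hDh, smul_zero, mul_zero]
  let R' := loc R (hm e η) he
  have hstab : ∀ x ∈ R', D x ∈ R' := by
    rintro x ⟨n, hn⟩
    refine ⟨n, ?_⟩
    have h1 := hD _ hn
    change D (hm e η ^ n * x) ∈ R at h1
    rw [Derivation.leibniz, hDhn, smul_zero, add_zero, smul_eq_mul] at h1
    exact h1
  obtain ⟨z, hz⟩ := (isUnit_hm (d := (e : ℤ)) hη).exists_right_inv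
  have hzR : z ∈ R' := inv_mem_loc _ _ _ _ hz
  have hbR : b ∈ R' := le_loc _ _ _ hb
  let w : LP L := y * (y * D b) ^ (p - 1)
  have hwR : w ∈ R := R.mul_mem hy (R.pow_mem (R.mul_mem hy (hD _ hb)) _)
  have hθ : D b * (w * z) = 1 := by
    rw [← hz, hprod]
    change D b * (y * (y * D b) ^ (p - 1) * z) = (y * D b) ^ p * z
    have h2 : ∀ a : LP L, a ^ p = a * a ^ (p - 1) := fun a => by
      rw [← pow_succ', Nat.sub_add_cancel hp.one_lt.le]
    rw [h2 (y * D b)]
    ring
  exact smooth_ker D hp hpk ψ hclosed b _ (w * z) rfl hθ R' hbR hstab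
    (R'.mul_mem (le_loc _ _ _ hwR) hzR) hsm

end dstep

section dgood

variable {k C C' : Type u} [Field k] [CommRing C] [IsDomain C] [Algebra k C] [CommRing C']
  [Algebra k C']

/-- **The step for derivations.** -/
theorem good_ker {p : ℕ} (hp : p.Prime) (hpk : (p : k) = 0) (D : Derivation k C C)
    (φ : FractionRing C) (hφ : ∀ b, algebraMap C (FractionRing C) (D^[p] b) =
      φ * algebraMap C (FractionRing C) (D b))
    {F : ℕ → Ideal C} (hF : IsFilt F) (hG : Good k hF) {l : ℕ}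
    (hdiv : ∀ d, ∀ a ∈ F d, D a ∈ F (d + l))
    (hfix : ∀ P : Ideal C, P.IsPrime → (∀ a, D a ∈ P) → F 1 ≤ P)
    (hlead : ∀ d, 1 ≤ d → ∀ a ∈ F d, ∃ N : ℕ, a ^ N ∈ leadI D F l (N * d))
    (j : C' →ₐ[k] C) (hj : Function.Injective j) (hjr : ∀ c, D c = 0 ↔ ∃ c', j c' = c)
    {F' : ℕ → Ideal C'} (hF' : IsFilt F') (hFF' : ∀ d c', c' ∈ F' d ↔ j c' ∈ F d) :
    Good k hF' := by
  classical
  let L := FractionRing C
  let g : C →ₐ[k] L := IsScalarTower.toAlgHom k C L
  have hinj : Function.Injective g := IsFractionRing.injective C L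
  obtain ⟨E', hE'⟩ := exists_der_frac D
  have hτ : ∀ b, E' (g b) = g (D b) := hE'
  have hGE := (good_iff g hF hinj).1 hG
  let R := rG g hF
  have hDgen : ∀ (d : ℤ) (b : C), tlD E' l (hm d (g b)) = hm (d + l) (g (D b)) := by
    intro d b
    rw [tlD_hm, hτ]
  have hDF : ∀ (d : ℤ) (b : C), b ∈ F d.toNat → D b ∈ F (d + l).toNat := by
    intro d b hb
    exact hF.anti _ _ (by omega) (hdiv _ b hb)
  have hD : ∀ f ∈ R, tlD E' l f ∈ R := by
    intro f hf
    have h1 : tlD E' l f = ∑ d ∈ f.coeff.support, tlD E' l (hm d (f.coeff d)) := by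
      rw [← map_sum, ← eq_sum_hm f]
    rw [h1]
    refine Subalgebra.sum_mem _ fun d _ => ?_
    obtain ⟨b, hb, hb'⟩ := hf d
    rw [← hb', hDgen]
    exact hm_mem_rG g hF (hDF d b hb)
  have hclosed := tlD_closed E' l hp.one_lt.le φ (frac_closed hp hpk D φ hφ E' hE')
  have hpL : ((p : ℕ) : LP L) = 0 := by
    rw [← map_natCast (algebraMap k (LP L)), hpk, map_zero]
  have hDp : ∀ f : LP L, tlD E' l (f ^ p) = 0 := by
    intro f
    rw [Derivation.leibniz_pow, nsmul_eq_mul, hpL, zero_mul]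
  let F0 := kerAlg (tlD E' l)
  have hfam : Fam R F0 := by
    intro Q hQ hQS d a hda hd
    by_contra hnQ
    have ha0 : a ≠ 0 := by
      intro h
      apply hnQ
      have e1 : (⟨hm d a, hda⟩ : R) = 0 := by
        apply Subtype.ext
        change hm (d : ℤ) a = 0
        rw [h, hm_zero]
      rw [e1]
      exact Q.zero_mem
    apply hnQ
    refine lead_rad g hF D l hdiv hfix hlead Q hQ ?_ d a hda hd
    intro d' c hc hcR
    have hb : hm d' (g c) ∈ R := hm_mem_rG g hF hc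
    by_cases hb0 : g (D c) = 0
    · have e1 : (⟨hm (d' + l) (g (D c)), hcR⟩ : R) = 0 := by
        apply Subtype.ext
        change hm (d' + l) (g (D c)) = 0
        rw [hb0, hm_zero]
      rw [e1]
      exact Q.zero_mem
    · let m : ℕ := (d' + l).natAbs + 1
      have hpos : 0 < (m * d + (d' + l) : ℤ) := by
        have h1 : -(((d' + l).natAbs : ℤ)) ≤ d' + l := by omega
        have h2 : (m : ℤ) = (d' + l).natAbs + 1 := by
          change ((((d' + l).natAbs + 1 : ℕ)) : ℤ) = _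
          push_cast; ring
        have h3 : (1 : ℤ) ≤ d := by exact_mod_cast hd
        nlinarith
      obtain ⟨e1, he1⟩ := Int.eq_ofNat_of_zero_le hpos.le
      have he1' : 0 < e1 := by
        have : (0 : ℤ) < e1 := by rw [← he1]; exact hpos
        exact_mod_cast this
      have hx : (hm d a ^ m * tlD E' l (hm d' (g c))) ^ p =
          hm ((p * e1 : ℕ) : ℤ) ((a ^ m * g (D c)) ^ p) := by
        rw [hDgen, hm_pow, hm_mul, hm_pow]
        congr 1
        push_cast
        rw [← he1]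
      have hxR : (hm d a ^ m * tlD E' l (hm d' (g c))) ^ p ∈ R :=
        R.pow_mem (R.mul_mem (R.pow_mem hda m) (hD _ hb)) p
      have hxR' : hm ((p * e1 : ℕ) : ℤ) ((a ^ m * g (D c)) ^ p) ∈ R := by rw [← hx]; exact hxR
      have hη : (a ^ m * g (D c)) ^ p ≠ 0 := pow_ne_zero _ (mul_ne_zero (pow_ne_zero _ ha0) hb0)
      have hmem : (⟨hm ((p * e1 : ℕ) : ℤ) ((a ^ m * g (D c)) ^ p), hxR'⟩ : R) ∈ Q := by
        refine hQS _ _ hxR' (Nat.mul_pos hp.pos he1') hη ?_ ?_
        · change _ ∈ kerAlg (tlD E' l)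
          rw [mem_kerAlg, ← hx]
          exact hDp _
        · exact smooth_good_fol hp hpk E' l _ hclosed R hD _ _ hxR' hη
            (hGE.sm _ _ hxR' (Nat.mul_pos hp.pos he1') hη) _ _ (R.pow_mem hda m) hb hx.symm
      have h4 : ((⟨hm d a, hda⟩ : R) ^ m * ⟨hm (d' + l) (g (D c)), hcR⟩) ^ p ∈ Q := by
        have e2 : ((⟨hm d a, hda⟩ : R) ^ m * ⟨hm (d' + l) (g (D c)), hcR⟩) ^ p =
            ⟨hm ((p * e1 : ℕ) : ℤ) ((a ^ m * g (D c)) ^ p), hxR'⟩ := by
          apply Subtype.ext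
          have e3 : (hm (d : ℤ) a ^ m * hm (d' + l) (g (D c))) ^ p =
              hm ((p * e1 : ℕ) : ℤ) ((a ^ m * g (D c)) ^ p) := by rw [← hDgen]; exact hx
          exact e3
        rw [e2]; exact hmem
      have h5 := hQ.mem_of_pow_mem _ h4
      rcases hQ.mem_or_mem h5 with h6 | h6
      · exact absurd (hQ.mem_of_pow_mem _ h6) hnQ
      · exact h6
  have hint : ∀ f ∈ R, IsIntegral ↥(R ⊓ F0) f := by
    intro f hf
    have hfp : f ^ p ∈ R ⊓ F0 := ⟨R.pow_mem hf p, by
      change _ ∈ kerAlg (tlD E' l)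
      rw [mem_kerAlg]
      exact hDp f⟩
    refine ⟨Polynomial.X ^ p - Polynomial.C ⟨f ^ p, hfp⟩,
      Polynomial.monic_X_pow_sub_C _ hp.ne_zero, ?_⟩
    rw [Polynomial.eval₂_sub, Polynomial.eval₂_pow, Polynomial.eval₂_X, Polynomial.eval₂_C]
    exact sub_self _
  have hinj' : Function.Injective (g.comp j) := hinj.comp hj
  have heq : rG (g.comp j) hF' = rG g hF ⊓ F0 := by
    apply le_antisymm
    · intro f hf
      have h1 : f ∈ rG g hF := by
        intro d
        obtain ⟨b, hb, hb'⟩ := hf d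
        exact ⟨j b, (hFF' _ _).1 hb, hb'⟩
      refine ⟨h1, ?_⟩
      have h2 : f = ∑ d ∈ f.coeff.support, hm d (f.coeff d) := eq_sum_hm f
      rw [h2]
      refine Subalgebra.sum_mem _ fun d _ => ?_
      obtain ⟨b, hb, hb'⟩ := hf d
      change _ ∈ kerAlg (tlD E' l)
      rw [mem_ker_hm, ← hb']
      change E' (g (j b)) = 0
      rw [hτ, (hjr (j b)).2 ⟨b, rfl⟩, map_zero]
    · rintro f ⟨hf, hf0⟩ d
      obtain ⟨b, hb, hb'⟩ := hf d
      have h1 := gr_kerAlg E' l f hf0 d
      rw [mem_ker_hm, ← hb', hτ, map_eq_zero_iff g hinj, hjr] at h1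
      obtain ⟨c', hc'⟩ := h1
      refine ⟨c', (hFF' _ _).2 (by rw [hc']; exact hb), ?_⟩
      change g (j c') = _
      rw [hc', hb']
  exact (good_iff (g.comp j) hF' hinj').2 (goodE_inf g hF hGE (g.comp j) hF' F0 heq hfam hint
    fun d a h => kerAlg_inv E' h)

end dgood

end Pool.Agent.H519R3.RS
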