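import Pool.Agent.H519R3.RS.LU
import Pool.Agent.H920R2.Gl4
import Pool.Agent.H920R2.Gl6

set_option autoImplicit false
set_option linter.unusedSectionVars false

open AlgebraicGeometry CategoryTheory Pool.Agent.H920R2

universe u v

namespace Pool.Agent.H519R3.RS

section denom

variable {k B : Type u} [Field k] [CommRing B] [IsDomain B] [Algebra k B] {p : ℕ}
  (hp : p.Prime) (hpk : (p : k) = 0) {F : ℕ → Ideal B}

include hp hpk in
/-- Denominators can be chosen invariant, one step. -/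
lemma denom_step {C C' : Subalgebra k B} (h : DStep p F C C' ∨ SStep p F C C') (z : B)
    (hz : z ∈ C) (hz0 : z ≠ 0) : ∃ w : B, z * w ∈ C' ∧ z * w ≠ 0 := by
  rcases h with ⟨D, φ, l, h1, h2, h3, h4, h5⟩ | ⟨σ, l, h1, hl, h2, h3, h4, h5⟩
  · refine ⟨z ^ (p - 1), ?_, mul_ne_zero hz0 (pow_ne_zero _ hz0)⟩
    have hpC : ((p : ℕ) : C) = 0 := by rw [← map_natCast (algebraMap k C), hpk, map_zero]
    have e1 : z * z ^ (p - 1) = (((⟨z, hz⟩ : C) ^ p : C) : B) := by
      rw [← pow_succ', Nat.sub_add_cancel hp.one_lt.le]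
      rfl
    rw [e1, h5]
    refine ⟨((⟨z, hz⟩ : C) ^ p).2, ?_⟩
    change D ((⟨z, hz⟩ : C) ^ p) = 0
    rw [Derivation.leibniz_pow, nsmul_eq_mul, hpC, zero_mul]
  · let z' : C := ⟨z, hz⟩
    have hz' : z' ≠ 0 := fun h => hz0 (congrArg Subtype.val h)
    obtain ⟨m, hm⟩ : ∃ m, p = m + 1 := ⟨p - 1, by have := hp.pos; omega⟩
    let w : C := ∏ i ∈ Finset.range m, σ^[i + 1] z'
    have e1 : nrm σ p z' = w * z' := by rw [hm, nrm_succ']
    refine ⟨w, ?_, ?_⟩
    · have e2 : z * (w : B) = ((nrm σ p z' : C) : B) := by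
        rw [e1, mul_comm z]
        rfl
      rw [e2, h5]
      exact ⟨(nrm σ p z').2, map_nrm σ p h1 z'⟩
    · have hw : w ≠ 0 := by
        rw [Finset.prod_ne_zero_iff]
        intro i _ h6
        have h7 : ∀ (i : ℕ) (x : C), σ^[i] x = 0 → x = 0 := by
          intro i
          induction i with
          | zero => intro x hx; exact hx
          | succ i ih =>
            intro x hx
            rw [Function.iterate_succ_apply] at hx
            exact (map_eq_zero_iff σ σ.injective).1 (ih _ hx)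
        exact hz' (h7 (i + 1) z' h6)
      refine mul_ne_zero hz0 fun h => hw (Subtype.ext h)

include hp hpk in
/-- Denominators can be chosen invariant. -/
lemma denom_tower {n : ℕ} {C : ℕ → Subalgebra k B} (hC0 : C 0 = ⊤)
    (hC : ∀ i < n, DStep p F (C i) (C (i + 1)) ∨ SStep p F (C i) (C (i + 1))) :
    ∀ i ≤ n, ∀ z : B, z ≠ 0 → ∃ w : B, z * w ∈ C i ∧ z * w ≠ 0 := by
  intro i
  induction i with
  | zero =>
    intro _ z hz
    refine ⟨1, ?_, by rwa [mul_one]⟩
    rw [hC0]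
    trivial
  | succ i ih =>
    intro hi z hz
    obtain ⟨w, hw, hw0⟩ := ih (by omega) z hz
    obtain ⟨w', hw', hw0'⟩ := denom_step hp hpk (hC i (by omega)) (z * w) hw hw0
    exact ⟨w * w', by rwa [← mul_assoc], by rwa [← mul_assoc]⟩

include hp hpk in
/-- The members of a tower are good. -/
lemma good_tower (hF : IsFilt F) (hG : Good k hF) (hne : F 1 ≠ ⊥) {n : ℕ}
    {C : ℕ → Subalgebra k B} (hC0 : C 0 = ⊤)
    (hC : ∀ i < n, DStep p F (C i) (C (i + 1)) ∨ SStep p F (C i) (C (i + 1))) :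
    Good k (isFilt_restr hF (C n)) ∧ restr F (C n) 1 ≠ ⊥ := by
  have key : ∀ i ≤ n, Good k (isFilt_restr hF (C i)) ∧ restr F (C i) 1 ≠ ⊥ := by
    intro i
    induction i with
    | zero => intro _; exact good_top hF hG hne hC0
    | succ i ih =>
      intro hi
      obtain ⟨h1, h2⟩ := ih (by omega)
      rcases hC i (by omega) with h | h
      · exact good_dstep hp hpk hF h h1 h2
      · exact good_sstep hp hpk hF h h1 h2
  exact key n le_rfl

end denom

section glob

variable {k K : Type u} [Field k] [Field K] [Algebra k K]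

/-- The Laurent polynomials with coefficients in a subfield. -/
def lpM (M : IntermediateField k K) : Subalgebra k (LP K) where
  carrier := {f | ∀ d : ℤ, f.coeff d ∈ M}
  mul_mem' := by
    intro f g hf hg d
    rw [eq_sum_hm f, Finset.sum_mul, AddMonoidAlgebra.coeff_sum, Finsupp.finsetSum_apply]
    refine sum_mem fun a _ => ?_
    rw [coeff_hm_mul]
    exact M.mul_mem (hf _) (hg _)
  add_mem' := by
    intro f g hf hg d
    rw [AddMonoidAlgebra.coeff_add, Finsupp.add_apply]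
    exact M.add_mem (hf d) (hg d)
  algebraMap_mem' := by
    intro r d
    rw [algebraMap_LP, coeff_hm]
    split_ifs
    · exact M.algebraMap_mem _
    · exact M.zero_mem

lemma hm_mem_lpM {M : IntermediateField k K} {d : ℤ} {x : K} : hm d x ∈ lpM M ↔ x ∈ M := by
  constructor
  · intro h
    have h1 := h d
    rwa [coeff_hm_same] at h1
  · intro h e
    rw [coeff_hm]
    split_ifs
    · exact h
    · exact M.zero_mem

lemma gr_lpM (M : IntermediateField k K) : Gr (lpM M) := fun _ hf d => hm_mem_lpM.2 (hf d)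

variable {C : Type u} [CommRing C] [IsDomain C] [Algebra k C] (g : C →ₐ[k] K)
  {F : ℕ → Ideal C} (hF : IsFilt F)

/-- The cover given by a smooth weighted blowup, relative to a subfield. -/
theorem cover_goodM (M : IntermediateField k K) (hM : ∀ x, g x ∈ M)
    (hinj : Function.Injective g) (hG : GoodE g hF) (hne : F 1 ≠ ⊥) :
    ∃ (T : Type u) (_ : Finite T) (e : T → ℕ) (η : T → K) (he : ∀ t, hm (e t) (η t) ∈ rG g hF),
      Cover g g (rG g hF) (lpM M) e η he := by
  obtain ⟨T, hT, e, η, he, h⟩ := cover_goodE g hF hinj hG hne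
  have hRM : rG g hF ≤ lpM M := by
    intro f hf d
    obtain ⟨b, -, hb⟩ := hf d
    rw [← hb]
    exact hM b
  refine ⟨T, hT, e, η, he, ?_⟩
  refine
    { inj := hinj
      grR := h.grR
      grF := gr_lpM M
      sR := h.sR
      sF := hm_mem_lpM.2 M.one_mem
      bR := h.bR
      cR := h.cR
      gF := fun a => hm_mem_lpM.2 (hM a)
      gAB := h.gAB
      gBA := fun b _ => ⟨b, rfl⟩
      invF := fun d a h => hm_mem_lpM.2 (M.inv_mem (hm_mem_lpM.1 h))
      int := h.int
      epos := h.epos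
      η0 := h.η0
      hF := fun t => hRM (he t)
      sm := ?_
      ft := h.ft
      pos := h.pos
      rad := h.rad }
  intro t
  have h1 := h.sm t
  rw [inf_top_eq] at h1
  have h2 : loc (rG g hF) (hm (e t) (η t)) (he t) ⊓ lpM M =
      loc (rG g hF) (hm (e t) (η t)) (he t) := by
    rw [inf_eq_left]
    rintro f ⟨n, hn⟩
    have hη : η t ∈ M := hm_mem_lpM.1 (hRM (he t))
    have h3 : f = hm (-(e t : ℤ)) (η t)⁻¹ ^ n * (hm (e t) (η t) ^ n * f) := by
      rw [← mul_assoc, ← mul_pow, hm_mul, neg_add_cancel, inv_mul_cancel₀ (h.η0 t), hm_one,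
        one_pow, one_mul]
    rw [h3]
    exact (lpM M).mul_mem ((lpM M).pow_mem (hm_mem_lpM.2 (M.inv_mem hη)) n) (hRM hn)
  rw [h2]
  exact h1

end glob

section charts

/-- A proper variety over `k` with function field `L` and a filtration of its structure sheaf by
sheaves of ideals, given by affine charts: the chart `a` is the spectrum of `B a`, the chart `b` is
on it the complement of the zeros of `h b / h a`, and every valuation ring of `L` which contains
`k` contains one of the `B a` (the valuative criterion of properness). -/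
structure Charts {k L 𝒜 : Type} [Field k] [Field L] [Algebra k L] (B : 𝒜 → Subalgebra k L)
    (h : 𝒜 → L) (F : ∀ a, ℕ → Ideal (B a)) : Prop where
  ne : ∀ a, h a ≠ 0
  mem : ∀ a b, h b / h a ∈ B a
  glue : ∀ a b d, ∀ f ∈ F b d, ∃ (n : ℕ), ∃ g ∈ F a d, (g : L) = (h b / h a) ^ n * f
  proper : ∀ V : ValuationSubring L, (∀ c : k, algebraMap k L c ∈ V) → ∃ a, ∀ x ∈ B a, x ∈ V
  frac : ∀ a x, ∃ y ∈ B a, ∃ z ∈ B a, z ≠ 0 ∧ x = y / z

/-- Smooth projective models of the function fields of the members of a tower. -/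
theorem model_of_charts {p : ℕ} (hp : p.Prime) {k L 𝒜 : Type} [Field k] [Field L] [Algebra k L]
    [Finite 𝒜] (hpk : (p : k) = 0) {B : 𝒜 → Subalgebra k L} {h : 𝒜 → L}
    {F : ∀ a, ℕ → Ideal (B a)} (hX : Charts B h F) (hF : ∀ a, IsFilt (F a))
    (hne : ∀ a, F a 1 ≠ ⊥) (hG : ∀ a, Good k (hF a)) (M : IntermediateField k L)
    (hM : ∀ a, h a ∈ M) (n : ℕ) (C : ∀ a, ℕ → Subalgebra k (B a)) (hC0 : ∀ a, C a 0 = ⊤)
    (hC : ∀ a, ∀ i < n, DStep p (F a) (C a i) (C a (i + 1)) ∨
      SStep p (F a) (C a i) (C a (i + 1)))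
    (hCn : ∀ a (x : B a), x ∈ C a n ↔ (x : L) ∈ M) :
    ∃ (W : 𝒜 → Set L), (∀ a, ∀ x ∈ M, ∃ y ∈ W a, ∃ y' ∈ W a, y' ≠ 0 ∧ x = y / y') ∧
      ∃ (I : Type) (_ : Finite I) (z : I → L) (J : Set I), ModelG k W M.toSubfield z J := by
  classical
  have hgood := fun a => good_tower hp hpk (hF a) (hG a) (hne a) (hC0 a) (hC a)
  let g : ∀ a, C a n →ₐ[k] L := fun a => (B a).val.comp (C a n).val
  have hg : ∀ a (x : C a n), g a x = ((x : B a) : L) := fun a x => rfl
  have hinj : ∀ a, Function.Injective (g a) := fun a =>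
    Subtype.val_injective.comp Subtype.val_injective
  have hgM : ∀ a x, g a x ∈ M := fun a x => (hCn a x.1).1 x.2
  have hGE := fun a => (good_iff (g a) (isFilt_restr (hF a) (C a n)) (hinj a)).1 (hgood a).1
  choose T hT e η he hcov using fun a =>
    cover_goodM (g a) (isFilt_restr (hF a) (C a n)) M (hgM a) (hinj a) (hGE a) (hgood a).2
  have hmemC : ∀ a (x : L), x ∈ B a → x ∈ M → ∃ y : C a n, g a y = x := fun a x h1 h2 =>
    ⟨⟨⟨x, h1⟩, (hCn a ⟨x, h1⟩).2 h2⟩, rfl⟩
  have hratio : ∀ a b, hm 0 (h b / h a) ∈ rG (g a) (isFilt_restr (hF a) (C a n)) := by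
    intro a b
    obtain ⟨y, hy⟩ := hmemC a _ (hX.mem a b) (M.div_mem (hM b) (hM a))
    rw [← hy]
    exact b_rG _ _ y
  have hgl : ∀ a b, ∀ f ∈ rG (g b) (isFilt_restr (hF b) (C b n)), ∃ N : ℕ,
      hm 0 (h b / h a) ^ N * f ∈ rG (g a) (isFilt_restr (hF a) (C a n)) := by
    intro a b f hf
    obtain ⟨r, hr⟩ := hmemC a _ (hX.mem a b) (M.div_mem (hM b) (hM a))
    have h1 : ∀ d : ℤ, ∃ (N : ℕ) (y : C a n), y ∈ restr (F a) (C a n) d.toNat ∧
        g a y = (h b / h a) ^ N * f.coeff d := by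
      intro d
      obtain ⟨c, hc, hc'⟩ := hf d
      obtain ⟨N, y, hy, hy'⟩ := hX.glue a b d.toNat c.1 hc
      have hcM : ((c : B b) : L) ∈ M := hgM b c
      have hyM : (y : L) ∈ M := by
        rw [hy']
        exact M.mul_mem (pow_mem (M.div_mem (hM b) (hM a)) N) hcM
      refine ⟨N, ⟨y, (hCn a y).2 hyM⟩, hy, ?_⟩
      change (y : L) = _
      rw [hy', ← hc']
      rfl
    choose N y hy hy' using h1
    obtain ⟨N0, hN0⟩ : ∃ N0, ∀ d ∈ f.coeff.support, N d ≤ N0 :=
      ⟨f.coeff.support.sup N, fun d hd => Finset.le_sup hd⟩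
    refine ⟨N0, ?_⟩
    have h2 : hm 0 (h b / h a) ^ N0 * f = ∑ d ∈ f.coeff.support,
        hm d (g a (r ^ (N0 - N d) * y d)) := by
      conv_lhs => rw [eq_sum_hm f]
      rw [Finset.mul_sum]
      refine Finset.sum_congr rfl ?_
      intro d hd
      have h3 := hN0 d hd
      rw [hm_pow, hm_mul, map_mul, map_pow, hy', hr, ← mul_assoc, ← pow_add,
        Nat.sub_add_cancel h3, mul_zero, zero_add]
    rw [h2]
    refine Subalgebra.sum_mem _ fun d _ => ?_
    exact hm_mem_rG _ _ (Ideal.mul_mem_left _ _ (hy d))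
  have hcv : ∀ V : ValuationSubring L, (∀ c : k, algebraMap k L c ∈ V) →
      ∃ a, ∀ b, g a b ∈ V := by
    intro V hV
    obtain ⟨a, ha⟩ := hX.proper V hV
    exact ⟨a, fun b => ha _ b.1.2⟩
  obtain ⟨ρ, H, hA⟩ := atlasG_of_covers (𝒜 := 𝒜) hcov M.toSubfield
    (fun d x hx => hm_mem_lpM.1 hx) h hX.ne (fun a => hm_mem_lpM.2 (hM a)) hratio hgl hcv
  obtain ⟨I, hI, z, J, hmod⟩ := model_of_atlasG ρ hA
  refine ⟨_, ?_, I, hI, z, J, hmod⟩
  intro a x hx
  obtain ⟨y, hy, z, hz, hz0, hxyz⟩ := hX.frac a x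
  obtain ⟨w, hw, hw0⟩ := denom_tower hp hpk (hC0 a) (hC a) n le_rfl (⟨z, hz⟩ : B a)
    (fun h => hz0 (congrArg Subtype.val h))
  have hzwM : z * (w : L) ∈ M := (hCn a _).1 hw
  have hzw0 : z * (w : L) ≠ 0 := fun h => hw0 (Subtype.ext h)
  have hywM : y * (w : L) ∈ M := by
    have h1 : y * (w : L) = x * (z * w) := by
      rw [hxyz]
      field_simp
    rw [h1]
    exact M.mul_mem hx hzwM
  obtain ⟨y1, hy1⟩ := hmemC a (y * w) ((B a).mul_mem hy w.2) hywM
  obtain ⟨z1, hz1⟩ := hmemC a (z * w) ((B a).mul_mem hz w.2) hzwM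
  refine ⟨_, ⟨y1, rfl⟩, _, ⟨z1, rfl⟩, ?_, ?_⟩
  · rw [hz1]; exact hzw0
  · rw [hy1, hz1, hxyz]
    have hw1 : (w : L) ≠ 0 := fun h => hzw0 (by rw [h, mul_zero])
    field_simp

end charts

end Pool.Agent.H519R3.RS
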