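import Pool.Agent.H519R3.RS.Centre
import Pool.Agent.H920R2.Sr1

set_option autoImplicit false
set_option linter.unusedSectionVars false

open AlgebraicGeometry CategoryTheory Pool.Agent.H920R2

universe u v

namespace Pool.Agent.H519R3.RS

section atlas

variable {k A K : Type u} [Field k] [CommRing A] [IsDomain A] [Algebra k A] [Field K]
  [Algebra k K] {g : A →ₐ[k] K}

/-- Destackification: an atlas can be replaced by one with trivial stabilisers. -/
theorem atlas_one (ρ : ℕ) : ∀ {T : Type u} [Finite T]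
    {C : T → Subalgebra k (LP K)} {H : T → K}, Atlas g ρ C H →
      ∃ (T' : Type u) (_ : Finite T') (C' : T' → Subalgebra k (LP K)) (H' : T' → K),
        Atlas g 1 C' H' := by
  induction ρ with
  | zero =>
    intro T _ C H h
    exfalso
    obtain ⟨t, -⟩ := h.cv ⊤ (fun a => trivial)
    obtain ⟨r, hr, hr0, -⟩ := h.un t
    omega
  | succ ρ ih =>
    intro T _ C H h
    by_cases hρ : ρ = 0
    · subst hρ
      exact ⟨T, inferInstance, C, H, h⟩
    · obtain ⟨T1, hT1, C1, H1, h1, hG⟩ := atlas_refine h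
      obtain ⟨T', hT', C', H', h'⟩ := atlas_step_gen (by omega) h1 hG
      exact ih h'

/-- Local uniformization from an atlas. -/
theorem lu_of_atlas (ρ : ℕ) {T : Type u} [Finite T] {C : T → Subalgebra k (LP K)} {H : T → K}
    (h : Atlas g ρ C H) (V : ValuationSubring K) (hV : ∀ a, g a ∈ V) :
    ∃ D : Subalgebra k K, Algebra.Smooth k D ∧ (∀ a, g a ∈ D) ∧ ∀ x ∈ D, x ∈ V := by
  obtain ⟨T', _, C', H', h'⟩ := atlas_one ρ h
  obtain ⟨t, ht⟩ := h'.cv V hV
  refine ⟨d0 (C' t), ?_, fun a => h'.aa t a, fun x hx => ht x hx⟩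
  obtain ⟨r, hr, hr1, u, hu0, hu, hu'⟩ := h'.un t
  have hr' : r = 1 := by omega
  subst hr'
  exact smooth_d0 (h'.sm t) (h'.gr t) hu0 (by exact_mod_cast hu') (by exact_mod_cast hu)

end atlas

section good

variable {k C L : Type u} [Field k] [CommRing C] [IsDomain C] [Algebra k C] [Field L]
  [Algebra k L] (g : C →ₐ[k] L) {F : ℕ → Ideal C} (hF : IsFilt F)

/-- The cover given by a smooth weighted blowup. -/
theorem cover_goodE (hinj : Function.Injective g) (hG : GoodE g hF) (hne : F 1 ≠ ⊥) :
    ∃ (T : Type u) (_ : Finite T) (e : T → ℕ) (η : T → L) (he : ∀ t, hm (e t) (η t) ∈ rG g hF),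
      Cover g g (rG g hF) ⊤ e η he := by
  classical
  set R := rG g hF with hR
  have hft := hG.ft
  have hRn : IsNoetherianRing R := Algebra.FiniteType.isNoetherianRing k R
  let S : Set R := {x | ∃ (e : ℕ) (η : L) (he : hm e η ∈ R), 0 < e ∧ η ≠ 0 ∧ x = ⟨hm e η, he⟩}
  have hfg : (Ideal.span S).FG := IsNoetherian.noetherian _
  obtain ⟨T0, hT0S, hT0⟩ := (Submodule.fg_span_iff_fg_span_finset_subset S).1 hfg
  let T := {x // x ∈ T0}
  choose e η he he0 hη0 hxeq using fun t : T => hT0S t.2
  refine ⟨T, inferInstance, e, η, he, ?_⟩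
  refine
    { inj := hinj
      grR := gr_rG g hF
      grF := fun f _ d => trivial
      sR := s_rG g hF
      sF := trivial
      bR := b_rG g hF
      cR := fun f hf d => by obtain ⟨b, -, hb⟩ := hf d; exact ⟨b, hb.symm⟩
      gF := fun a => trivial
      gAB := fun a => ⟨a, rfl⟩
      gBA := fun b _ => ⟨b, rfl⟩
      invF := fun d a h => trivial
      int := fun V hV b => hV b
      epos := he0
      η0 := hη0
      hF := fun t => trivial
      sm := fun t => by rw [inf_top_eq]; exact hG.sm (e t) (η t) (he t) (he0 t) (hη0 t)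
      ft := hft
      pos := ?_
      rad := ?_ }
  · obtain ⟨a, ha, ha0⟩ := Submodule.exists_mem_ne_zero_of_ne_bot hne
    refine ⟨1, g a, one_pos, ?_, hm_mem_rG g hF (d := ((1 : ℕ) : ℤ)) (by
      rw [Int.toNat_natCast]; exact ha)⟩
    intro h
    exact ha0 ((map_eq_zero_iff g hinj).1 h)
  · intro d a h hd
    refine ⟨1, ?_⟩
    rw [pow_one]
    by_cases ha : a = 0
    · have h1 : (⟨hm d a, h⟩ : R) = 0 := by
        apply Subtype.ext
        change hm (d : ℤ) a = 0
        rw [ha, hm_zero]
      rw [h1]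
      exact Ideal.zero_mem _
    · have h1 : (⟨hm d a, h⟩ : R) ∈ Ideal.span S := Ideal.subset_span ⟨d, a, h, hd, ha, rfl⟩
      have h2 : (Ideal.span S : Ideal R) = Ideal.span (T0 : Set R) := hT0
      rw [h2] at h1
      have h3 : Ideal.span (T0 : Set R) ≤ Ideal.span (Set.range fun t : T =>
          (⟨hm (e t) (η t), he t⟩ : R)) := by
        rw [Ideal.span_le]
        intro z hz
        refine Ideal.subset_span ⟨⟨z, hz⟩, ?_⟩
        exact (hxeq ⟨z, hz⟩).symm
      exact h3 h1

/-- **Local uniformization.** -/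
theorem lu_goodE (hinj : Function.Injective g) (hG : GoodE g hF) (hne : F 1 ≠ ⊥)
    (V : ValuationSubring L) (hV : ∀ a, g a ∈ V) :
    ∃ D : Subalgebra k L, Algebra.Smooth k D ∧ (∀ a, g a ∈ D) ∧ ∀ x ∈ D, x ∈ V := by
  obtain ⟨T, _, e, η, he, hcov⟩ := cover_goodE g hF hinj hG hne
  obtain ⟨ρ, H, hA⟩ := atlas_of_cover hcov
  exact lu_of_atlas ρ hA V hV

end good

section loc

/-- From smooth algebras to regular local rings. -/
theorem lu_local {k A R K : Type} [Field k] [CommRing A] [Algebra k A]
    [CommRing R] [Algebra A R] (P : Ideal A) [P.IsPrime] [IsLocalization.AtPrime R P] [Field K]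
    [Algebra R K] [Algebra k K] (g : A →ₐ[k] K) (hg : ∀ a, g a = algebraMap R K (algebraMap A R a))
    (V : ValuationSubring K) (hV : ∀ r : R, algebraMap R K r ∈ V)
    (hVm : ∀ a : A, a ∉ P → ¬ V.valuation (g a) < 1)
    (D : Subalgebra k K) (hD : Algebra.Smooth k D) (hgD : ∀ a, g a ∈ D) (hDV : ∀ x ∈ D, x ∈ V) :
    ∃ A' : Subalgebra R K, A'.FG ∧ (∀ a : A', (a : K) ∈ V) ∧
      ∃ Q : Ideal A', ∃ (_ : Q.IsPrime), (∀ a : A', a ∈ Q ↔ V.valuation (a : K) < 1) ∧
        IsRegularLocalRing (Localization.AtPrime Q) := by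
  classical
  have hft : Algebra.FiniteType k D := inferInstance
  obtain ⟨G, hG⟩ := (Subalgebra.fg_iff_finiteType _).2 hft
  have hGV : ∀ x ∈ G, x ∈ V := fun x hx => hDV x (by rw [← hG]; exact Algebra.subset_adjoin hx)
  let A' : Subalgebra R K := Algebra.adjoin R (G : Set K)
  have hkR : ∀ r : k, algebraMap k K r = algebraMap R K (algebraMap A R (algebraMap k A r)) := by
    intro r
    rw [← hg, AlgHom.commutes]
  have hDA : ∀ x ∈ D, x ∈ A' := by
    intro x hx
    rw [← hG] at hx
    induction hx using Algebra.adjoin_induction with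
    | mem x hx => exact Algebra.subset_adjoin hx
    | algebraMap r => rw [hkR]; exact Subalgebra.algebraMap_mem _ _
    | add x y _ _ hx hy => exact Subalgebra.add_mem _ hx hy
    | mul x y _ _ hx hy => exact Subalgebra.mul_mem _ hx hy
  have hAV : ∀ x ∈ A', x ∈ V := by
    intro x hx
    induction hx using Algebra.adjoin_induction with
    | mem x hx => exact hGV x hx
    | algebraMap r => exact hV r
    | add x y _ _ hx hy => exact V.add_mem _ _ hx hy
    | mul x y _ _ hx hy => exact V.mul_mem _ _ hx hy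
  -- denominators
  have hden : ∀ x ∈ A', ∃ c : A, c ∉ P ∧ g c * x ∈ D := by
    intro x hx
    induction hx using Algebra.adjoin_induction with
    | mem x hx =>
      refine ⟨1, fun h => (Ideal.ne_top_iff_one P).1 Ideal.IsPrime.ne_top' h, ?_⟩
      rw [map_one, one_mul, ← hG]
      exact Algebra.subset_adjoin hx
    | algebraMap r =>
      obtain ⟨⟨a, c⟩, hac⟩ := IsLocalization.surj P.primeCompl r
      refine ⟨c.1, c.2, ?_⟩
      have h1 : g c.1 * algebraMap R K r = g a := by
        rw [hg, hg, ← map_mul, mul_comm, hac]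
      rw [h1]
      exact hgD a
    | add x y _ _ hx hy =>
      obtain ⟨c, hc, hcx⟩ := hx
      obtain ⟨c', hc', hcy⟩ := hy
      refine ⟨c * c', fun h => (Ideal.IsPrime.mem_or_mem inferInstance h).elim hc hc', ?_⟩
      have h1 : g (c * c') * (x + y) = g c' * (g c * x) + g c * (g c' * y) := by
        rw [map_mul]; ring
      rw [h1]
      exact D.add_mem (D.mul_mem (hgD _) hcx) (D.mul_mem (hgD _) hcy)
    | mul x y _ _ hx hy =>
      obtain ⟨c, hc, hcx⟩ := hx
      obtain ⟨c', hc', hcy⟩ := hy
      refine ⟨c * c', fun h => (Ideal.IsPrime.mem_or_mem inferInstance h).elim hc hc', ?_⟩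
      have h1 : g (c * c') * (x * y) = (g c * x) * (g c' * y) := by
        rw [map_mul]; ring
      rw [h1]
      exact D.mul_mem hcx hcy
  let ι : A' →+* V := A'.val.toRingHom.codRestrict V.toSubring (fun x => hAV _ x.2)
  let Q : Ideal A' := (IsLocalRing.maximalIdeal V).comap ι
  have hQ : Q.IsPrime := Ideal.IsPrime.comap ι
  have hQm : ∀ a : A', a ∈ Q ↔ V.valuation (a : K) < 1 := by
    intro a
    change ι a ∈ IsLocalRing.maximalIdeal V ↔ _
    exact V.valuation_lt_one_iff (ι a)
  refine ⟨A', ⟨G, rfl⟩, fun a => hAV _ a.2, Q, hQ, hQm, ?_⟩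
  -- the smooth algebra
  let j : D →+* A' := D.val.toRingHom.codRestrict A'.toSubring (fun x => hDA _ x.2)
  have hj : ∀ x, ((j x : A') : K) = x := fun x => rfl
  let q : Ideal D := Q.comap j
  have hq : q.IsPrime := hQ.comap j
  have hreg := regular_of_smooth (k := k) q
  let M := Localization.AtPrime Q
  let _ : Algebra D M := ((algebraMap A' M).comp j).toAlgebra
  have hDM : ∀ x : D, algebraMap D M x = algebraMap A' M (j x) := fun x => rfl
  have hMinj : Function.Injective (algebraMap A' M) :=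
    IsLocalization.injective M Q.primeCompl_le_nonZeroDivisors
  have hloc : IsLocalization.AtPrime M q := by
    refine ⟨?_, ?_, ?_⟩
    · rintro ⟨y, hy⟩
      exact IsLocalization.map_units M (⟨j y, hy⟩ : Q.primeCompl)
    · intro z
      obtain ⟨⟨a, b⟩, hab⟩ := IsLocalization.surj Q.primeCompl z
      obtain ⟨c, hc, hca⟩ := hden _ a.2
      obtain ⟨c', hc', hcb⟩ := hden _ b.1.2
      have hcc : c * c' ∉ P := fun h => (Ideal.IsPrime.mem_or_mem inferInstance h).elim hc hc'
      let d1 : D := ⟨g (c * c') * a, by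
        have h1 : g (c * c') * (a : K) = g c' * (g c * a) := by rw [map_mul]; ring
        rw [h1]
        exact D.mul_mem (hgD _) hca⟩
      let d2 : D := ⟨g (c * c') * b.1, by
        have h1 : g (c * c') * ((b.1 : A') : K) = g c * (g c' * b.1) := by rw [map_mul]; ring
        rw [h1]
        exact D.mul_mem (hgD _) hcb⟩
      let γ : A' := j ⟨g (c * c'), hgD _⟩
      have hγ : γ ∉ Q := by
        rw [hQm]
        exact hVm _ hcc
      have e1 : j d1 = γ * a := Subtype.ext rfl
      have e2 : j d2 = γ * b.1 := Subtype.ext rfl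
      have hd2 : d2 ∉ q := by
        intro h
        have h1 : j d2 ∈ Q := h
        rw [e2] at h1
        exact (hQ.mem_or_mem h1).elim hγ b.2
      refine ⟨⟨d1, ⟨d2, hd2⟩⟩, ?_⟩
      change z * algebraMap A' M (j d2) = algebraMap A' M (j d1)
      rw [e1, e2, map_mul, map_mul, ← hab]
      ring
    · intro x y hxy
      refine ⟨1, ?_⟩
      have h1 : j x = j y := hMinj hxy
      have h2 : x = y := Subtype.ext (congrArg (fun t : A' => (t : K)) h1)
      rw [h2]
  exact IsRegularLocalRing.of_ringEquiv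
    (IsLocalization.algEquiv q.primeCompl (Localization.AtPrime q) M).toRingEquiv

end loc

end Pool.Agent.H519R3.RS
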