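import Pool.Agent.H519R3.RS.LU

set_option autoImplicit false
set_option linter.unusedSectionVars false

open AlgebraicGeometry CategoryTheory Pool.Agent.H920R2

namespace Pool.Agent.H519R3.RS

/-- Local uniformization from a resolution, by the valuative criterion of properness. -/
theorem lu_of_hasResolution {k A K : Type} [Field k] [CommRing A] [IsDomain A] [Algebra k A]
    (h : HasResolution (X := Spec (CommRingCat.of A))
      (Spec.map (CommRingCat.ofHom (algebraMap k A)))) [Field K] [Algebra k K]
    (g : A →ₐ[k] K) (hg : Function.Injective g) (V : ValuationSubring K) (hV : ∀ a, g a ∈ V) :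
    ∃ D : Subalgebra k K, Algebra.Smooth k D ∧ (∀ a, g a ∈ D) ∧ ∀ x ∈ D, x ∈ V := by
  classical
  obtain ⟨Y, π, hY, hπ, hsm, U, hU, hiso⟩ := h
  let X : Scheme := Spec (CommRingCat.of A)
  let ξ : Spec (CommRingCat.of K) ⟶ X := Spec.map (CommRingCat.ofHom (g : A →+* K))
  have hX : IsIntegral X := inferInstance
  let pt : Spec (CommRingCat.of K) := (⊥ : PrimeSpectrum K)
  have hpt : ∀ x : Spec (CommRingCat.of K), x = pt := fun x =>
    Subsingleton.elim (α := PrimeSpectrum K) x pt
  have hξ : ξ pt = genericPoint X := by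
    have h1 : genericPoint X = (⊥ : PrimeSpectrum A) :=
      genericPoint_eq_bot_of_affine (CommRingCat.of A)
    rw [h1]
    apply PrimeSpectrum.ext
    change Ideal.comap (g : A →+* K) ⊥ = ⊥
    exact (RingHom.injective_iff_ker_eq_bot _).1 hg
  have hUne : (U : Set X).Nonempty := hU.nonempty
  have hgU : genericPoint X ∈ U := by
    obtain ⟨x, hx⟩ := hUne
    exact ((genericPoint_spec X).specializes trivial).mem_open U.2 hx
  have hξU : Set.range ξ ⊆ Set.range U.ι := by
    rintro _ ⟨x, rfl⟩
    rw [hpt x, hξ, Scheme.Opens.range_ι]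
    exact hgU
  let ξ' : Spec (CommRingCat.of K) ⟶ U := IsOpenImmersion.lift U.ι ξ hξU
  have hξ' : ξ' ≫ U.ι = ξ := IsOpenImmersion.lift_fac _ _ _
  have hUn : Nonempty U := ⟨⟨_, hgU⟩⟩
  have hUi : IsIntegral U.toScheme := isIntegral_of_isOpenImmersion U.ι
  have e1 : ξ' pt = genericPoint U.toScheme := by
    apply U.ι.isOpenEmbedding.injective
    have h1 : U.ι (genericPoint U.toScheme) = genericPoint X :=
      genericPoint_eq_of_isOpenImmersion U.ι
    rw [h1, ← hξ, ← hξ']
    rfl
  let γ : U.toScheme ⟶ Y := inv (π ∣_ U) ≫ (π ⁻¹ᵁ U).ι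
  have hγ : IsOpenImmersion γ := inferInstance
  have hγπ : γ ≫ π = U.ι := by
    change (inv (π ∣_ U) ≫ (π ⁻¹ᵁ U).ι) ≫ π = U.ι
    rw [Category.assoc, ← morphismRestrict_ι, IsIso.inv_hom_id_assoc]
  let ζ : Spec (CommRingCat.of K) ⟶ Y := ξ' ≫ γ
  have hζπ : ζ ≫ π = ξ := by
    change (ξ' ≫ γ) ≫ π = ξ
    rw [Category.assoc, hγπ, hξ']
  have hζ : ζ pt = genericPoint Y := by
    have h1 : γ (genericPoint U.toScheme) = genericPoint Y := genericPoint_eq_of_isOpenImmersion γ
    change γ (ξ' pt) = _
    rw [e1, h1]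
  -- the valuative criterion
  let gV : A →+* V := (g : A →+* K).codRestrict V.toSubring hV
  let i₂ : Spec (CommRingCat.of V) ⟶ X := Spec.map (CommRingCat.ofHom gV)
  let jK : Spec (CommRingCat.of K) ⟶ Spec (CommRingCat.of V) :=
    Spec.map (CommRingCat.ofHom (algebraMap V K))
  have hcomm : ζ ≫ π = jK ≫ i₂ := by
    rw [hζπ]
    change Spec.map _ = Spec.map _ ≫ Spec.map _
    rw [← Spec.map_comp]
    rfl
  have hex : ValuativeCriterion.Existence π := by
    have h1 : UniversallyClosed π := inferInstance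
    rw [UniversallyClosed.eq_valuativeCriterion] at h1
    exact h1.1
  have hlift := hex { R := V, K := K, i₁ := ζ, i₂ := i₂, commSq := ⟨hcomm⟩ }
  obtain ⟨⟨l, hl1, hl2⟩⟩ := hlift
  change jK ≫ l = ζ at hl1
  change l ≫ π = i₂ at hl2
  -- an affine neighbourhood of the centre
  let s : Spec (CommRingCat.of V) := IsLocalRing.closedPoint V
  obtain ⟨D0, c, hc, hsc, -⟩ := Scheme.exists_affine_mem_range_and_range_subset
    (X := Y) (x := l s) (U := ⊤) trivial
  have hlc : Set.range l ⊆ Set.range c := by
    have h1 : s ∈ l ⁻¹ᵁ c.opensRange := hsc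
    have h2 : l ⁻¹ᵁ c.opensRange = ⊤ := (IsLocalRing.closedPoint_mem_iff _).1 h1
    rintro _ ⟨x, rfl⟩
    have h3 : x ∈ l ⁻¹ᵁ c.opensRange := by rw [h2]; trivial
    exact h3
  let l' : Spec (CommRingCat.of V) ⟶ Spec D0 := IsOpenImmersion.lift c l hlc
  have hl' : l' ≫ c = l := IsOpenImmersion.lift_fac _ _ _
  let φ : D0 ⟶ CommRingCat.of V := Spec.preimage l'
  have hφ : Spec.map φ = l' := Spec.map_preimage l'
  let α : CommRingCat.of A ⟶ D0 := Spec.preimage (c ≫ π)
  have hα : Spec.map α = c ≫ π := Spec.map_preimage _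
  have hαφ : α ≫ φ = CommRingCat.ofHom gV := by
    apply Spec.map_injective
    rw [Spec.map_comp, hφ, hα, ← Category.assoc, hl', hl2]
  let θ : D0 →+* K := (algebraMap V K).comp φ.hom
  have hD0 : IsDomain D0 := by
    have h1 : Nonempty (Spec D0) := by
      obtain ⟨x, -⟩ := hsc
      exact ⟨x⟩
    have h2 : IsIntegral (Spec D0) := isIntegral_of_isOpenImmersion c
    exact (affine_isIntegral_iff D0).1 h2
  have hD0' : Nonempty (Spec D0) := by
    obtain ⟨x, -⟩ := hsc
    exact ⟨x⟩
  have hθinj : Function.Injective θ := by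
    have h1 : Spec.map (CommRingCat.ofHom θ) ≫ c = ζ := by
      have h2 : CommRingCat.ofHom θ = φ ≫ CommRingCat.ofHom (algebraMap V K) := rfl
      rw [h2, Spec.map_comp, hφ, Category.assoc, hl', ← hl1]
    have h3 : (Spec.map (CommRingCat.ofHom θ)) pt = genericPoint (Spec D0) := by
      apply c.isOpenEmbedding.injective
      have h4 : c (genericPoint (Spec D0)) = genericPoint Y := genericPoint_eq_of_isOpenImmersion c
      rw [h4, ← hζ, ← h1]
      rfl
    rw [genericPoint_eq_bot_of_affine] at h3
    have h5 := congrArg PrimeSpectrum.asIdeal h3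
    change Ideal.comap θ ⊥ = ⊥ at h5
    exact (RingHom.injective_iff_ker_eq_bot _).2 h5
  -- the algebra structure
  let _ : Algebra k D0 := (α.hom.comp (algebraMap k A)).toAlgebra
  have hθα : ∀ a, θ (α.hom a) = g a := by
    intro a
    have h1 := congrArg (fun f : CommRingCat.of A ⟶ CommRingCat.of V => f.hom a) hαφ
    change φ.hom (α.hom a) = gV a at h1
    change algebraMap V K (φ.hom (α.hom a)) = g a
    rw [h1]
    rfl
  let θ' : D0 →ₐ[k] K :=
    { toRingHom := θ
      commutes' := fun r => by
        change θ (α.hom (algebraMap k A r)) = _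
        rw [hθα, AlgHom.commutes] }
  have hD0sm : Algebra.Smooth k D0 := by
    have h1 : AlgebraicGeometry.Smooth (c ≫ π ≫ Spec.map (CommRingCat.ofHom (algebraMap k A))) :=
      inferInstance
    have h2 : c ≫ π ≫ Spec.map (CommRingCat.ofHom (algebraMap k A)) =
        Spec.map (CommRingCat.ofHom (algebraMap k D0)) := by
      rw [← Category.assoc, ← hα, ← Spec.map_comp]
      rfl
    rw [h2, HasRingHomProperty.Spec_iff (P := @AlgebraicGeometry.Smooth)] at h1
    exact RingHom.smooth_algebraMap.1 h1
  refine ⟨θ'.range, ?_, ?_, ?_⟩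
  · exact Algebra.Smooth.of_equiv (AlgEquiv.ofInjective θ' hθinj)
  · intro a
    exact ⟨α.hom a, hθα a⟩
  · rintro _ ⟨d, rfl⟩
    exact (φ.hom d).2

/-- Local uniformization of `R`: for every valuation of the field of fractions `K` of `R`, with
valuation ring `V`, which is centred on `R`, there is a finitely generated `R`-subalgebra `A` of `K`
with `A ⊆ V` whose localization at the centre of the valuation is regular. -/
def AdmitsLU (R : Type) [CommRing R] [IsLocalRing R] : Prop :=
  ∀ (K : Type) [Field K] [Algebra R K] [IsFractionRing R K] (V : ValuationSubring K),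
    (∀ r : R, algebraMap R K r ∈ V) →
    (∀ r : R, r ∈ IsLocalRing.maximalIdeal R ↔ V.valuation (algebraMap R K r) < 1) →
    ∃ A : Subalgebra R K, A.FG ∧ (∀ a : A, (a : K) ∈ V) ∧
      ∃ Q : Ideal A, ∃ (_ : Q.IsPrime), (∀ a : A, a ∈ Q ↔ V.valuation (a : K) < 1) ∧
        IsRegularLocalRing (Localization.AtPrime Q)

/-- The local rings of an affine variety with a resolution admit local uniformization. -/
theorem admitsLU_of_res {k A : Type} [Field k] [CommRing A] [IsDomain A] [Algebra k A]
    (h : HasResolution (X := Spec (CommRingCat.of A))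
      (Spec.map (CommRingCat.ofHom (algebraMap k A)))) (P : Ideal A) [P.IsPrime]
    (R : Type) [CommRing R] [IsLocalRing R] [Algebra A R] [IsLocalization.AtPrime R P] :
    AdmitsLU R := by
  intro K _ _ _ V hV hVm
  let g0 : A →+* K := (algebraMap R K).comp (algebraMap A R)
  let _ : Algebra k K := (g0.comp (algebraMap k A)).toAlgebra
  let g : A →ₐ[k] K := { g0 with commutes' := fun r => rfl }
  have hginj : Function.Injective g := by
    have e1 : Function.Injective (algebraMap A R) :=
      IsLocalization.injective R P.primeCompl_le_nonZeroDivisors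
    have e2 : Function.Injective (algebraMap R K) := IsFractionRing.injective R K
    exact e2.comp e1
  obtain ⟨D, hD1, hD2, hD3⟩ := lu_of_hasResolution h g hginj V (fun a => hV _)
  refine lu_local P g (fun a => rfl) V hV ?_ D hD1 hD2 hD3
  intro a ha hlt
  have h3 := (hVm (algebraMap A R a)).2 hlt
  exact h3 (IsLocalization.map_units R (⟨a, ha⟩ : P.primeCompl))

end Pool.Agent.H519R3.RS
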