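import Pool.Agent.H519R3.RS.Step

set_option autoImplicit false
set_option linter.unusedSectionVars false

open AlgebraicGeometry CategoryTheory Pool.Agent.H920R2

universe u v

namespace Pool.Agent.H519R3.RS

section intf

variable {k L : Type u} [Field k] [Field L] [Algebra k L]

/-- Integrality over the ring of invariants. -/
lemma int_fixed (σ : LP L ≃ₐ[k] LP L) (n : ℕ) (hn : 0 < n) (hσ : ∀ b, σ^[n] b = b)
    (R : Subalgebra k (LP L)) (hR : ∀ x ∈ R, σ x ∈ R) :
    ∀ f ∈ R, IsIntegral ↥(R ⊓ fixedAlg σ) f := by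
  intro b hb
  have hit : ∀ i, σ^[i] b ∈ R := by
    intro i
    induction i with
    | zero => exact hb
    | succ i ih => rw [Function.iterate_succ_apply']; exact hR _ ih
  let P : Polynomial (LP L) :=
    ∏ i ∈ Finset.range n, (Polynomial.X - Polynomial.C (σ^[i] b))
  have hP : P.Monic := Polynomial.monic_prod_of_monic _ _ fun g _ => Polynomial.monic_X_sub_C _
  have hmap : P.map (σ : LP L →+* LP L) = P := by
    have h1 : P.map (σ : LP L →+* LP L) =
        ∏ i ∈ Finset.range n, (Polynomial.X - Polynomial.C (σ^[i + 1] b)) := by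
      simp only [P, Polynomial.map_prod, Polynomial.map_sub, Polynomial.map_X, Polynomial.map_C]
      refine Finset.prod_congr rfl fun i _ => ?_
      rw [Function.iterate_succ_apply']
      rfl
    obtain ⟨m, rfl⟩ : ∃ m, n = m + 1 := ⟨n - 1, by omega⟩
    rw [h1, Finset.prod_range_succ, hσ]
    change _ = ∏ i ∈ Finset.range (m + 1), (Polynomial.X - Polynomial.C (σ^[i] b))
    rw [Finset.prod_range_succ']
    rfl
  let P0 : Polynomial R :=
    ∏ i ∈ Finset.range n, (Polynomial.X - Polynomial.C (⟨σ^[i] b, hit i⟩ : R))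
  have hP0 : P0.map (R.val : R →+* LP L) = P := by
    simp only [P, P0, Polynomial.map_prod, Polynomial.map_sub, Polynomial.map_X, Polynomial.map_C]
    rfl
  have hcoeff : ∀ i, P.coeff i ∈ R ⊓ fixedAlg σ := by
    intro i
    constructor
    · rw [← hP0, Polynomial.coeff_map]
      exact (P0.coeff i).2
    · change _ ∈ fixedAlg σ
      rw [mem_fixedAlg]
      have := congrArg (fun p => Polynomial.coeff p i) hmap
      rw [Polynomial.coeff_map] at this
      exact this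
  have hsub : ((P.coeffs : Set (LP L))) ⊆ (R ⊓ fixedAlg σ).toSubring := by
    intro c hc
    obtain ⟨i, -, rfl⟩ := Polynomial.mem_coeffs_iff.1 hc
    exact hcoeff i
  refine ⟨P.toSubring _ hsub, (Polynomial.monic_toSubring _ _ hsub).2 hP, ?_⟩
  have h1 : Polynomial.eval₂ (R ⊓ fixedAlg σ).toSubring.subtype b (P.toSubring _ hsub) =
      Polynomial.eval b P := by
    rw [Polynomial.eval₂_eq_eval_map, Polynomial.map_toSubring]
  change Polynomial.eval₂ (R ⊓ fixedAlg σ).toSubring.subtype b _ = 0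
  rw [h1, Polynomial.eval_prod]
  apply Finset.prod_eq_zero (Finset.mem_range.2 hn)
  simp

/-- The invariants of the localization at a good element are smooth. -/
lemma smooth_good_zp {p : ℕ} (hp : p.Prime) (τ : L ≃ₐ[k] L) (hτp : ∀ x, τ^[p] x = x)
    (R : Subalgebra k (LP L)) (hs : hm (-1) 1 ∈ R) (l : ℕ)
    (hD : ∀ f ∈ R, hm l 1 * (tl τ f - f) ∈ R) (e : ℕ) (η : L) (he : hm e η ∈ R) (hη : η ≠ 0)
    (hτη : τ η = η) (hsm : Algebra.Smooth k (loc R (hm e η) he)) (b : R)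
    (hdvd : ∀ j, 0 < j → j < p → TH τ R l hs hD j b ∣ (⟨hm e η, he⟩ : R)) :
    Algebra.Smooth k ↥(loc R (hm e η) he ⊓ fixedAlg (tl τ)) := by
  set h0 : LP L := hm e η with hh0
  have hτh : tl τ h0 = h0 := by rw [hh0, tl_hm, hτη]
  let R' := loc R h0 he
  obtain ⟨z, hz⟩ := (isUnit_hm (d := (e : ℤ)) hη).exists_right_inv
  have hzR : z ∈ R' := inv_mem_loc _ _ _ _ hz
  have hbR : (b : LP L) ∈ R' := le_loc _ _ _ b.2
  have hstab : ∀ x ∈ R', tl τ x ∈ R' ∧ hm l 1 * (tl τ x - x) ∈ R' := by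
    rintro x ⟨n, hn⟩
    constructor
    · refine ⟨n, ?_⟩
      have h1 := tl_mem_of τ R hs l hD hn
      rw [map_mul, map_pow, hτh] at h1
      exact h1
    · refine ⟨n, ?_⟩
      have h1 := hD _ hn
      rw [map_mul, map_pow, hτh] at h1
      have h2 : h0 ^ n * (hm l 1 * (tl τ x - x)) =
          hm l 1 * (h0 ^ n * tl τ x - h0 ^ n * x) := by ring
      rw [h2]
      exact h1
  -- the differences are invertible
  have hinv : ∀ j, 0 < j → j < p → ∃ c ∈ R',
      (hm (l : ℤ) (1 : L) : LP L) * ((tl τ)^[j] (b : LP L) - (b : LP L)) * c = 1 := by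
    intro j hj hjp
    obtain ⟨c, hc'⟩ := hdvd j hj hjp
    have h1 := congrArg (fun x : R => (x : LP L)) hc'
    change h0 = ((TH τ R l hs hD j b : R) : LP L) * (c : LP L) at h1
    refine ⟨c * z, R'.mul_mem (le_loc _ _ _ c.2) hzR, ?_⟩
    rw [← mul_assoc]
    change ((TH τ R l hs hD j b : R) : LP L) * (c : LP L) * z = 1
    rw [← h1, hz]
  have hsl : ∀ x : LP L, x = hm (-1) 1 ^ l * (hm l 1 * x) := by
    intro x
    rw [← mul_assoc, sl_one, one_mul]
  refine smooth_fixed_LP τ p hp.pos hτp R' (fun x hx => (hstab x hx).1) (b : LP L) hbR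
    ?_ ?_ hsm
  · intro c hc'
    obtain ⟨w, hw, hw1⟩ := hinv 1 one_pos hp.one_lt
    rw [Function.iterate_one] at hw1
    refine ⟨hm l 1 * (tl τ c - c) * w, R'.mul_mem (hstab c hc').2 hw, ?_⟩
    have h3 : tl τ (b : LP L) - (b : LP L) = hm (-1) 1 ^ l * (hm l 1 *
        (tl τ (b : LP L) - (b : LP L))) := hsl _
    have h4 : tl τ c - c = hm (-1) 1 ^ l * (hm l 1 * (tl τ c - c)) := hsl _
    rw [h3]
    have h5 : hm (l : ℤ) 1 * (tl τ c - c) * w * (hm (-1) 1 ^ l * (hm l 1 *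
        (tl τ (b : LP L) - (b : LP L)))) = hm (-1) 1 ^ l * (hm l 1 * (tl τ c - c)) *
          (hm l 1 * (tl τ (b : LP L) - (b : LP L)) * w) := by ring
    rw [h5, hw1, mul_one, ← h4]
  · intro j hj hjp
    obtain ⟨w, hw, hw1⟩ := hinv j hj hjp
    constructor
    · intro h
      rw [h, sub_self, mul_zero, zero_mul] at hw1
      exact zero_ne_one hw1
    · refine ⟨hm l 1 * (tl τ (b : LP L) - (b : LP L)) * w,
        R'.mul_mem (hstab _ hbR).2 hw, ?_⟩
      have h3 : (tl τ)^[j] (b : LP L) - (b : LP L) = hm (-1) 1 ^ l * (hm l 1 *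
        ((tl τ)^[j] (b : LP L) - (b : LP L))) := hsl _
      have h4 : tl τ (b : LP L) - (b : LP L) = hm (-1) 1 ^ l * (hm l 1 *
        (tl τ (b : LP L) - (b : LP L))) := hsl _
      rw [h3]
      have h5 : hm (l : ℤ) 1 * (tl τ (b : LP L) - (b : LP L)) * w *
          (hm (-1) 1 ^ l * (hm l 1 * ((tl τ)^[j] (b : LP L) - (b : LP L)))) =
          hm (-1) 1 ^ l * (hm l 1 * (tl τ (b : LP L) - (b : LP L))) *
          (hm l 1 * ((tl τ)^[j] (b : LP L) - (b : LP L)) * w) := by ring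
      rw [h5, hw1, mul_one, ← h4]

end intf

section sgood

variable {k C C' : Type u} [Field k] [CommRing C] [IsDomain C] [Algebra k C] [CommRing C']
  [Algebra k C']

/-- **The step for automorphisms.** -/
theorem good_fix {p : ℕ} (hp : p.Prime) (hpk : (p : k) = 0) (σ : C ≃ₐ[k] C)
    (hσ : ∀ b, σ^[p] b = b)
    {F : ℕ → Ideal C} (hF : IsFilt F) (hG : Good k hF) {l : ℕ} (hl : 0 < l)
    (hdiv : ∀ d, ∀ a ∈ F d, σ a - a ∈ F (d + l))
    (hfix : ∀ P : Ideal C, P.IsPrime → (∀ a, σ a - a ∈ P) → F 1 ≤ P)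
    (hlead : ∀ d, 1 ≤ d → ∀ a ∈ F d, ∃ N : ℕ, a ^ N ∈ leadI (fun c => σ c - c) F l (N * d))
    (j : C' →ₐ[k] C) (hj : Function.Injective j) (hjr : ∀ c, σ c = c ↔ ∃ c', j c' = c)
    {F' : ℕ → Ideal C'} (hF' : IsFilt F') (hFF' : ∀ d c', c' ∈ F' d ↔ j c' ∈ F d) :
    Good k hF' := by
  classical
  let L := FractionRing C
  let g : C →ₐ[k] L := IsScalarTower.toAlgHom k C L
  have hinj : Function.Injective g := IsFractionRing.injective C L
  let τ : L ≃ₐ[k] L := IsFractionRing.fieldEquivOfAlgEquiv k L L σ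
  have hτ : ∀ b, τ (g b) = g (σ b) := fun b =>
    IsFractionRing.fieldEquivOfAlgEquiv_algebraMap k L L σ b
  have hτp : ∀ x, τ^[p] x = x := by
    intro x
    obtain ⟨a, c, -, rfl⟩ := IsFractionRing.div_surjective (A := C) x
    have h3 : ∀ (m : ℕ) (y z : L), τ^[m] (y / z) = τ^[m] y / τ^[m] z := by
      intro m
      induction m with
      | zero => intro y z; rfl
      | succ m ih => intro y z; rw [Function.iterate_succ_apply, map_div₀, ih,
          Function.iterate_succ_apply, Function.iterate_succ_apply]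
    have h4 : ∀ y : C, τ^[p] (algebraMap C L y) = algebraMap C L y := by
      intro y
      have h5 := tau_iter g σ τ hτ p y
      rw [hσ] at h5
      exact h5
    rw [h3, h4, h4]
  have hGE := (good_iff g hF hinj).1 hG
  let R := rG g hF
  have hDgen : ∀ (d : ℤ) (b : C), hm (l : ℤ) 1 * (tl τ (hm d (g b)) - hm d (g b)) =
      hm (d + l) (g (σ b - b)) := by
    intro d b
    rw [tl_hm, hτ, ← hm_sub, hm_mul, one_mul, ← map_sub, add_comm]
  have hDF : ∀ (d : ℤ) (b : C), b ∈ F d.toNat → σ b - b ∈ F (d + l).toNat := by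
    intro d b hb
    exact hF.anti _ _ (by omega) (hdiv _ b hb)
  have hD : ∀ f ∈ R, hm l 1 * (tl τ f - f) ∈ R := by
    intro f hf
    have h1 : hm (l : ℤ) 1 * (tl τ f - f) = ∑ d ∈ f.coeff.support,
        hm (l : ℤ) 1 * (tl τ (hm d (f.coeff d)) - hm d (f.coeff d)) := by
      rw [← Finset.mul_sum, Finset.sum_sub_distrib, ← map_sum, ← eq_sum_hm f]
    rw [h1]
    refine Subalgebra.sum_mem _ fun d _ => ?_
    obtain ⟨b, hb, hb'⟩ := hf d
    rw [← hb', hDgen]
    exact hm_mem_rG g hF (hDF d b hb)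
  have hs : hm (-1) 1 ∈ R := s_rG g hF
  have hc : ∀ f ∈ R, ∀ d, ∃ b : C, f.coeff d = g b := fun f hf d => by
    obtain ⟨b, -, hb⟩ := hf d; exact ⟨b, hb.symm⟩
  let F0 : Subalgebra k (LP L) := fixedAlg (tl τ)
  have hrad : ∀ Q : Ideal R, Q.IsPrime → (∀ f : R, TH τ R l hs hD 1 f ∈ Q) →
      ∀ (d : ℕ) (a : L) (h : hm d a ∈ R), 0 < d → (⟨hm d a, h⟩ : R) ∈ Q := by
    intro Q hQ hQT d a h hd
    refine lead_rad g hF (fun c => σ c - c) l hdiv hfix hlead Q hQ ?_ d a h hd
    intro e c hc' hcR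
    have h1 := hQT ⟨hm e (g c), hm_mem_rG g hF hc'⟩
    have h2 : TH τ R l hs hD 1 ⟨hm e (g c), hm_mem_rG g hF hc'⟩ =
        (⟨hm (e + l) (g (σ c - c)), hcR⟩ : R) := by
      apply Subtype.ext
      exact hDgen e c
    rw [h2] at h1
    exact h1
  have hfam : Fam R F0 := by
    intro Q hQ hQS d a hda hd
    refine rad_zp g hinj σ τ hτ hp hpk hσ hτp R (gr_rG g hF) hs (b_rG g hF) hc l hl hD hrad
      Q hQ ?_ d a hda hd
    rintro ⟨x, hx⟩ ⟨e, η, he0, hη, hxe, hτη, b, hdvd⟩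
    have hxe' : x = hm e η := hxe
    subst hxe'
    refine hQS e η hx he0 hη ?_ ?_
    · change _ ∈ fixedAlg (tl τ)
      rw [mem_fixedAlg, tl_hm, hτη]
    · exact smooth_good_zp hp τ hτp R hs l hD e η hx hη hτη (hGE.sm e η hx he0 hη) b hdvd
  have hpp : ∀ f : LP L, (tl τ)^[p] f = f := by
    intro f
    apply AddMonoidAlgebra.coeff_injective
    ext d
    rw [tl_iter_coeff, hτp]
  have hint : ∀ f ∈ R, IsIntegral ↥(R ⊓ F0) f :=
    int_fixed (tl τ) p hp.pos hpp R fun x hx => tl_mem_of τ R hs l hD hx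
  have hinj' : Function.Injective (g.comp j) := hinj.comp hj
  have hfe : ∀ b : C, σ b = b ↔ τ (g b) = g b := by
    intro b
    rw [hτ]
    exact ⟨fun h => by rw [h], fun h => hinj h⟩
  have heq : rG (g.comp j) hF' = rG g hF ⊓ F0 := by
    apply le_antisymm
    · intro f hf
      have h1 : f ∈ rG g hF := by
        intro d
        obtain ⟨b, hb, hb'⟩ := hf d
        exact ⟨j b, (hFF' _ _).1 hb, hb'⟩
      refine ⟨h1, ?_⟩
      have h2 : f = ∑ d ∈ f.coeff.support, hm d (f.coeff d) := eq_sum_hm f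
      rw [h2]
      refine Subalgebra.sum_mem _ fun d _ => ?_
      obtain ⟨b, hb, hb'⟩ := hf d
      change _ ∈ fixedAlg (tl τ)
      rw [mem_fixedAlg, tl_hm, ← hb']
      change hm d (τ (g (j b))) = hm d (g (j b))
      rw [(hfe (j b)).1 ((hjr (j b)).2 ⟨b, rfl⟩)]
    · rintro f ⟨hf, hf0⟩ d
      obtain ⟨b, hb, hb'⟩ := hf d
      have h1 := gr_fixed τ f hf0 d
      rw [mem_fixedAlg, tl_hm, ← hb'] at h1
      have h2 := (hfe b).2 (hm_inj h1)
      rw [hjr] at h2
      obtain ⟨c', hc'⟩ := h2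
      refine ⟨c', (hFF' _ _).2 (by rw [hc']; exact hb), ?_⟩
      change g (j c') = _
      rw [hc', hb']
  refine (good_iff (g.comp j) hF' hinj').2 (goodE_inf g hF hGE (g.comp j) hF' F0 heq hfam hint
    fun d a h => ?_)
  change _ ∈ fixedAlg (tl τ) at h ⊢
  rw [mem_fixedAlg, tl_hm] at h ⊢
  rw [map_inv₀, hm_inj h]

end sgood

end Pool.Agent.H519R3.RS
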