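import Pool.Agent.H519R3.RS.Clo

set_option autoImplicit false
set_option linter.unusedSectionVars false

open AlgebraicGeometry CategoryTheory Pool.Agent.H920R2

universe u v

namespace Pool.Agent.H519R3.RS

section ft

variable {k L : Type u} [Field k] [Field L] [Algebra k L]

/-- Artin–Tate. -/
lemma finiteType_of_int {R R' : Subalgebra k (LP L)} (hle : R' ≤ R)
    (hft : Algebra.FiniteType k R) (hint : ∀ f ∈ R, IsIntegral R' f) :
    Algebra.FiniteType k R' := by
  let _ : Algebra R' R := (Subalgebra.inclusion hle).toRingHom.toAlgebra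
  have _ : IsScalarTower k R' R := IsScalarTower.of_algebraMap_eq fun r => rfl
  have h1 : Algebra.IsIntegral R' R := by
    constructor
    rintro ⟨f, hf⟩
    obtain ⟨P, hP, hP0⟩ := hint f hf
    refine ⟨P, hP, ?_⟩
    have h2 : Function.Injective R.val := Subtype.val_injective
    apply h2
    rw [map_zero, ← AlgHom.coe_toRingHom, Polynomial.hom_eval₂]
    exact hP0
  have h2 : Algebra.FiniteType R' R := by
    apply Algebra.FiniteType.of_restrictScalars_finiteType k
  have h3 : Module.Finite R' R := Algebra.IsIntegral.finite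
  refine ⟨?_⟩
  refine fg_of_fg_of_fg k R' R ?_ h3.1 ?_
  · exact hft.1
  · exact Subalgebra.inclusion_injective hle

/-- The step: the ring of invariants of a good filtered algebra is good. -/
theorem goodE_inf {C C' : Type u} [CommRing C] [Algebra k C] [CommRing C'] [Algebra k C']
    (g : C →ₐ[k] L) {F : ℕ → Ideal C} (hF : IsFilt F) (hG : GoodE g hF)
    (g' : C' →ₐ[k] L) {F' : ℕ → Ideal C'} (hF' : IsFilt F') (F0 : Subalgebra k (LP L))
    (heq : rG g' hF' = rG g hF ⊓ F0) (hfam : Fam (rG g hF) F0)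
    (hint : ∀ f ∈ rG g hF, IsIntegral ↥(rG g hF ⊓ F0) f)
    (hinv : ∀ (d : ℤ) (a : L), hm d a ∈ F0 → hm (-d) a⁻¹ ∈ F0) : GoodE g' hF' := by
  have key : ∀ (R1 R2 : Subalgebra k (LP L)) (h12 : R1 = R2) (x : LP L) (h1 : x ∈ R1)
      (h2 : x ∈ R2), Algebra.Smooth k (loc R2 x h2) → Algebra.Smooth k (loc R1 x h1) := by
    rintro R1 R2 rfl x h1 h2 h
    exact h
  refine ⟨?_, ?_⟩
  · have h1 := finiteType_of_int (inf_le_left : rG g hF ⊓ F0 ≤ rG g hF) hG.ft hint
    rw [heq]
    exact h1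
  · intro e η he he0 hη
    have he' : hm (e : ℤ) η ∈ rG g hF ⊓ F0 := by rw [← heq]; exact he
    exact key _ _ heq _ _ he' (smooth_loc_inf hfam hint hinv e η he' he0 hη)

end ft

section lead

variable {k C L : Type u} [Field k] [CommRing C] [Algebra k C] [Field L] [Algebra k L]
  (g : C →ₐ[k] L) {F : ℕ → Ideal C} (hF : IsFilt F)

/-- The ideal of elements with vanishing leading forms. -/
def leadI (δ : C → C) (F : ℕ → Ideal C) (l m : ℕ) : Ideal C :=
  F (m + 1) ⊔ Ideal.span {y | ∃ e, ∃ c ∈ F e, ∃ b ∈ F (m - (e + l)), y = b * δ c}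

/-- The zeros of the leading form. -/
theorem lead_rad (δ : C → C) (l : ℕ) (hdiv : ∀ d, ∀ a ∈ F d, δ a ∈ F (d + l))
    (hfix : ∀ P : Ideal C, P.IsPrime → (∀ a, δ a ∈ P) → F 1 ≤ P)
    (hlead : ∀ d, 1 ≤ d → ∀ a ∈ F d, ∃ N : ℕ, a ^ N ∈ leadI δ F l (N * d))
    (Q : Ideal (rG g hF)) (hQ : Q.IsPrime)
    (hDQ : ∀ (e : ℤ) (c : C), c ∈ F e.toNat → ∀ h : hm (e + l) (g (δ c)) ∈ rG g hF,
      (⟨hm (e + l) (g (δ c)), h⟩ : rG g hF) ∈ Q)
    (d : ℕ) (a : L) (h : hm d a ∈ rG g hF) (hd : 0 < d) : (⟨hm d a, h⟩ : rG g hF) ∈ Q := by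
  classical
  let R := rG g hF
  have hDF : ∀ (d : ℤ) (b : C), b ∈ F d.toNat → δ b ∈ F (d + l).toNat := by
    intro d b hb
    exact hF.anti _ _ (by omega) (hdiv _ b hb)
  have hDQ' : ∀ (e : ℤ) (c : C) (hc : c ∈ F e.toNat),
      (⟨hm (e + l) (g (δ c)), hm_mem_rG g hF (hDF e c hc)⟩ : R) ∈ Q := fun e c hc =>
    hDQ e c hc _
  obtain ⟨b, hb, hba⟩ := of_hm_mem_rG g hF h
  rw [Int.toNat_natCast] at hb
  subst hba
  let s : R := ⟨hm (-1) 1, s_rG g hF⟩
  by_cases hsQ : s ∈ Q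
  · obtain ⟨N, hN⟩ := hlead d hd b hb
    have key : ∀ z ∈ F (N * d + 1) ⊔
        Ideal.span {y | ∃ e, ∃ c ∈ F e, ∃ b ∈ F (N * d - (e + l)), y = b * δ c},
        ∃ hz : hm ((N * d : ℕ) : ℤ) (g z) ∈ R, (⟨hm ((N * d : ℕ) : ℤ) (g z), hz⟩ : R) ∈ Q := by
      intro z hz
      obtain ⟨z1, hz1, z2, hz2, rfl⟩ := Submodule.mem_sup.1 hz
      have h1 : ∃ hz : hm ((N * d : ℕ) : ℤ) (g z1) ∈ R,
          (⟨hm ((N * d : ℕ) : ℤ) (g z1), hz⟩ : R) ∈ Q := by
        have h2 : hm ((N * d : ℕ) : ℤ) (g z1) =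
            hm (-1) 1 * hm ((N * d + 1 : ℕ) : ℤ) (g z1) := by
          rw [hm_mul, one_mul]
          push_cast
          congr 1
          ring
        have h3 : hm ((N * d + 1 : ℕ) : ℤ) (g z1) ∈ R :=
          hm_mem_rG g hF (by rw [Int.toNat_natCast]; exact hz1)
        have h4 : hm ((N * d : ℕ) : ℤ) (g z1) ∈ R := by
          rw [h2]; exact R.mul_mem (s_rG g hF) h3
        refine ⟨h4, ?_⟩
        have h5 : (⟨hm ((N * d : ℕ) : ℤ) (g z1), h4⟩ : R) = s * ⟨_, h3⟩ := Subtype.ext h2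
        rw [h5]
        exact Q.mul_mem_right _ hsQ
      have h2 : ∃ hz : hm ((N * d : ℕ) : ℤ) (g z2) ∈ R,
          (⟨hm ((N * d : ℕ) : ℤ) (g z2), hz⟩ : R) ∈ Q := by
        clear hz h1
        induction hz2 using Submodule.span_induction with
        | mem z hz =>
          obtain ⟨e, c, hc, b', hb', rfl⟩ := hz
          have h2 : hm ((N * d : ℕ) : ℤ) (g (b' * (δ c))) =
              hm (((N * d : ℕ) : ℤ) - (e + l)) (g b') * hm ((e : ℤ) + l) (g (δ c)) := by
            rw [hm_mul, map_mul]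
            congr 1
            ring
          have h3 : hm (((N * d : ℕ) : ℤ) - (e + l)) (g b') ∈ R := by
            refine hm_mem_rG g hF ?_
            have e1 : (((N * d : ℕ) : ℤ) - (e + l)).toNat = N * d - (e + l) := by omega
            rw [e1]
            exact hb'
          have hc' : c ∈ F (e : ℤ).toNat := by rw [Int.toNat_natCast]; exact hc
          have h4 := hDQ' e c hc'
          refine ⟨by rw [h2]; exact R.mul_mem h3 (hm_mem_rG g hF (hDF e c hc')), ?_⟩
          have h5 : (⟨hm ((N * d : ℕ) : ℤ) (g (b' * (δ c))), by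
              rw [h2]; exact R.mul_mem h3 (hm_mem_rG g hF (hDF e c hc'))⟩ : R) =
              ⟨_, h3⟩ * ⟨hm ((e : ℤ) + l) (g (δ c)),
                hm_mem_rG g hF (hDF e c hc')⟩ := Subtype.ext h2
          rw [h5]
          exact Q.mul_mem_left _ h4
        | zero =>
          have h2 : hm ((N * d : ℕ) : ℤ) (g 0) = 0 := by rw [map_zero, hm_zero]
          refine ⟨by rw [h2]; exact R.zero_mem, ?_⟩
          have h3 : (⟨hm ((N * d : ℕ) : ℤ) (g 0), by rw [h2]; exact R.zero_mem⟩ : R) = 0 :=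
            Subtype.ext h2
          rw [h3]
          exact Q.zero_mem
        | add y z _ _ hy hz =>
          obtain ⟨hy1, hy2⟩ := hy
          obtain ⟨hz1, hz2⟩ := hz
          have h2 : hm ((N * d : ℕ) : ℤ) (g (y + z)) =
              hm ((N * d : ℕ) : ℤ) (g y) + hm ((N * d : ℕ) : ℤ) (g z) := by
            rw [map_add, hm_add]
          refine ⟨by rw [h2]; exact R.add_mem hy1 hz1, ?_⟩
          have h3 : (⟨hm ((N * d : ℕ) : ℤ) (g (y + z)), by
              rw [h2]; exact R.add_mem hy1 hz1⟩ : R) = ⟨_, hy1⟩ + ⟨_, hz1⟩ := Subtype.ext h2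
          rw [h3]
          exact Q.add_mem hy2 hz2
        | smul r z _ hz =>
          obtain ⟨hz1, hz2⟩ := hz
          have h2 : hm ((N * d : ℕ) : ℤ) (g (r • z)) =
              hm 0 (g r) * hm ((N * d : ℕ) : ℤ) (g z) := by
            rw [smul_eq_mul, map_mul, hm_mul, zero_add]
          refine ⟨by rw [h2]; exact R.mul_mem (b_rG g hF r) hz1, ?_⟩
          have h3 : (⟨hm ((N * d : ℕ) : ℤ) (g (r • z)), by
              rw [h2]; exact R.mul_mem (b_rG g hF r) hz1⟩ : R) =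
              ⟨_, b_rG g hF r⟩ * ⟨_, hz1⟩ := Subtype.ext h2
          rw [h3]
          exact Q.mul_mem_left _ hz2
      obtain ⟨a1, a2⟩ := h1
      obtain ⟨b1, b2⟩ := h2
      have h3 : hm ((N * d : ℕ) : ℤ) (g (z1 + z2)) =
          hm ((N * d : ℕ) : ℤ) (g z1) + hm ((N * d : ℕ) : ℤ) (g z2) := by
        rw [map_add, hm_add]
      refine ⟨by rw [h3]; exact R.add_mem a1 b1, ?_⟩
      have h4 : (⟨hm ((N * d : ℕ) : ℤ) (g (z1 + z2)), by
          rw [h3]; exact R.add_mem a1 b1⟩ : R) = ⟨_, a1⟩ + ⟨_, b1⟩ := Subtype.ext h3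
      rw [h4]
      exact Q.add_mem a2 b2
    obtain ⟨h1, h2⟩ := key _ hN
    have h3 : (⟨hm d (g b), h⟩ : R) ^ N = ⟨_, h1⟩ := by
      apply Subtype.ext
      change hm (d : ℤ) (g b) ^ N = hm ((N * d : ℕ) : ℤ) (g (b ^ N))
      rw [hm_pow, map_pow]
      push_cast
      rfl
    rw [← h3] at h2
    exact hQ.mem_of_pow_mem _ h2
  · -- the general fibre
    have hsn : ∀ n : ℕ, s ^ n ∉ Q := fun n hn => hsQ (hQ.mem_of_pow_mem n hn)
    let ib : C →+* R :=
      { toFun := fun b => ⟨hm 0 (g b), b_rG g hF b⟩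
        map_one' := Subtype.ext (by change hm 0 (g 1) = 1; rw [map_one, hm_one])
        map_mul' := fun a b => Subtype.ext (by
          change hm 0 (g (a * b)) = hm 0 (g a) * hm 0 (g b)
          rw [map_mul, hm_mul, add_zero])
        map_zero' := Subtype.ext (by change hm 0 (g 0) = 0; rw [map_zero, hm_zero])
        map_add' := fun a b => Subtype.ext (by
          change hm 0 (g (a + b)) = hm 0 (g a) + hm 0 (g b)
          rw [map_add, hm_add]) }
    have hF0 : ∀ c : C, c ∈ F (0 : ℤ).toNat := fun c => by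
      change c ∈ F 0
      rw [hF.zero]; trivial
    have h1 : F 1 ≤ Q.comap ib := by
      refine hfix _ (hQ.comap _) fun c => ?_
      rw [Ideal.mem_comap]
      have h2 := hDQ' 0 c (hF0 c)
      have h3 : ib (δ c) = s ^ l * ⟨hm (0 + l) (g (δ c)),
          hm_mem_rG g hF (hDF 0 c (hF0 c))⟩ := by
        apply Subtype.ext
        change hm 0 (g (δ c)) = hm (-1) 1 ^ l * hm (0 + l) (g (δ c))
        rw [hm_pow, hm_mul, one_pow, one_mul]
        congr 1
        ring
      rw [h3]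
      exact Q.mul_mem_left _ h2
    have h2 : b ∈ Q.comap ib := h1 (hF.anti 1 d hd hb)
    rw [Ideal.mem_comap] at h2
    have h3 : ib b = s ^ d * ⟨hm d (g b), h⟩ := by
      apply Subtype.ext
      change hm 0 (g b) = hm (-1) 1 ^ d * hm (d : ℤ) (g b)
      rw [hm_pow, hm_mul, one_pow, one_mul]
      congr 1
      ring
    rw [h3] at h2
    exact (hQ.mem_or_mem h2).resolve_left (hsn d)

end lead

end Pool.Agent.H519R3.RS
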