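import Pool.Agent.H519R3.RS.DStep
import Pool.Agent.H519R3.RS.SStep

set_option autoImplicit false
set_option linter.unusedSectionVars false

open AlgebraicGeometry CategoryTheory Pool.Agent.H920R2

universe u v

namespace Pool.Agent.H519R3.RS

section congr

variable {k C C' : Type u} [Field k] [CommRing C] [IsDomain C] [Algebra k C] [CommRing C']
  [Algebra k C']

/-- Transport of a filtration. -/
theorem good_congr {F : ℕ → Ideal C} (hF : IsFilt F) (hG : Good k hF)
    (j : C' →ₐ[k] C) (hj : Function.Injective j) (hjs : Function.Surjective j)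
    {F' : ℕ → Ideal C'} (hF' : IsFilt F') (hFF' : ∀ d c', c' ∈ F' d ↔ j c' ∈ F d) :
    Good k hF' := by
  let L := FractionRing C
  let g : C →ₐ[k] L := IsScalarTower.toAlgHom k C L
  have hinj : Function.Injective g := IsFractionRing.injective C L
  have hGE := (good_iff g hF hinj).1 hG
  have hinj' : Function.Injective (g.comp j) := hinj.comp hj
  have heq : rG (g.comp j) hF' = rG g hF := by
    apply le_antisymm
    · intro f hf d
      obtain ⟨b, hb, hb'⟩ := hf d
      exact ⟨j b, (hFF' _ _).1 hb, hb'⟩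
    · intro f hf d
      obtain ⟨b, hb, hb'⟩ := hf d
      obtain ⟨c', rfl⟩ := hjs b
      exact ⟨c', (hFF' _ _).2 hb, hb'⟩
  have key : ∀ (R1 R2 : Subalgebra k (LP L)) (h12 : R1 = R2) (x : LP L) (h1 : x ∈ R1)
      (h2 : x ∈ R2), Algebra.Smooth k (loc R2 x h2) → Algebra.Smooth k (loc R1 x h1) := by
    rintro R1 R2 rfl x h1 h2 h
    exact h
  refine (good_iff (g.comp j) hF' hinj').2 ⟨?_, ?_⟩
  · rw [heq]
    exact hGE.ft
  · intro e η he he0 hη
    have he' : hm (e : ℤ) η ∈ rG g hF := by rw [← heq]; exact he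
    exact key _ _ heq _ _ he' (hGE.sm e η he' he0 hη)

end congr

section restr

variable {k B : Type u} [Field k] [CommRing B] [Algebra k B]

/-- The filtration induced on a subalgebra. -/
def restr (F : ℕ → Ideal B) (C : Subalgebra k B) (d : ℕ) : Ideal C := (F d).comap C.val

lemma mem_restr {F : ℕ → Ideal B} {C : Subalgebra k B} {d : ℕ} {c : C} :
    c ∈ restr F C d ↔ (c : B) ∈ F d := Iff.rfl

lemma isFilt_restr {F : ℕ → Ideal B} (hF : IsFilt F) (C : Subalgebra k B) :
    IsFilt (restr F C) := by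
  refine ⟨?_, ?_, ?_⟩
  · ext c
    rw [mem_restr, hF.zero]
    exact ⟨fun _ => trivial, fun _ => trivial⟩
  · intro a b hab c hc
    exact hF.anti a b hab hc
  · intro a b
    rw [Ideal.mul_le]
    intro x hx y hy
    exact hF.mul a b (Ideal.mul_mem_mul hx hy)

/-- A step of the tower given by a derivation. -/
def DStep (p : ℕ) (F : ℕ → Ideal B) (C C' : Subalgebra k B) : Prop :=
  ∃ (D : Derivation k C C) (φ : FractionRing C) (l : ℕ),
    (∀ b, algebraMap C (FractionRing C) (D^[p] b) = φ * algebraMap C (FractionRing C) (D b)) ∧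
    (∀ d, ∀ a ∈ restr F C d, D a ∈ restr F C (d + l)) ∧
    (∀ P : Ideal C, P.IsPrime → (∀ a, D a ∈ P) → restr F C 1 ≤ P) ∧
    (∀ d, 1 ≤ d → ∀ a ∈ restr F C d, ∃ N : ℕ, a ^ N ∈ leadI D (restr F C) l (N * d)) ∧
    ∀ b : B, b ∈ C' ↔ ∃ h : b ∈ C, D ⟨b, h⟩ = 0

/-- A step of the tower given by an automorphism. -/
def SStep (p : ℕ) (F : ℕ → Ideal B) (C C' : Subalgebra k B) : Prop :=
  ∃ (σ : C ≃ₐ[k] C) (l : ℕ), (∀ b, σ^[p] b = b) ∧ 0 < l ∧
    (∀ d, ∀ a ∈ restr F C d, σ a - a ∈ restr F C (d + l)) ∧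
    (∀ P : Ideal C, P.IsPrime → (∀ a, σ a - a ∈ P) → restr F C 1 ≤ P) ∧
    (∀ d, 1 ≤ d → ∀ a ∈ restr F C d, ∃ N : ℕ,
      a ^ N ∈ leadI (fun c => σ c - c) (restr F C) l (N * d)) ∧
    ∀ b : B, b ∈ C' ↔ ∃ h : b ∈ C, σ ⟨b, h⟩ = ⟨b, h⟩

variable [IsDomain B] {p : ℕ} (hp : p.Prime) (hpk : (p : k) = 0) {F : ℕ → Ideal B}
  (hF : IsFilt F)

include hp hpk in
lemma good_dstep {C C' : Subalgebra k B} (h : DStep p F C C')
    (hG : Good k (isFilt_restr hF C)) (hne : restr F C 1 ≠ ⊥) :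
    Good k (isFilt_restr hF C') ∧ restr F C' 1 ≠ ⊥ := by
  obtain ⟨D, φ, l, h1, h2, h3, h4, h5⟩ := h
  have hle : C' ≤ C := fun b hb => by
    obtain ⟨h, -⟩ := (h5 b).1 hb
    exact h
  refine ⟨good_ker hp hpk D φ h1 (isFilt_restr hF C) hG h2 h3 h4 (Subalgebra.inclusion hle)
    (Subalgebra.inclusion_injective hle) ?_ _ fun d c' => Iff.rfl, ?_⟩
  · rintro ⟨b, hb⟩
    constructor
    · intro h
      exact ⟨⟨b, (h5 b).2 ⟨hb, h⟩⟩, rfl⟩
    · rintro ⟨⟨b', hb'⟩, h⟩
      have h6 : b' = b := congrArg Subtype.val h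
      subst h6
      obtain ⟨h7, h8⟩ := (h5 b').1 hb'
      exact h8
  · obtain ⟨a, ha, ha0⟩ := Submodule.exists_mem_ne_zero_of_ne_bot hne
    have hpC : ((p : ℕ) : C) = 0 := by rw [← map_natCast (algebraMap k C), hpk, map_zero]
    have hap : D (a ^ p) = 0 := by
      rw [Derivation.leibniz_pow, nsmul_eq_mul, hpC, zero_mul]
    have hmem : ((a ^ p : C) : B) ∈ C' := (h5 _).2 ⟨(a ^ p).2, hap⟩
    intro hbot
    have h6 : (⟨((a ^ p : C) : B), hmem⟩ : C') ∈ restr F C' 1 := by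
      rw [mem_restr]
      exact (restr F C 1).pow_mem_of_mem ha p hp.pos
    rw [hbot, Ideal.mem_bot] at h6
    have h7 : ((a ^ p : C) : B) = 0 := congrArg Subtype.val h6
    have h8 : a ^ p = 0 := Subtype.ext h7
    exact ha0 (pow_eq_zero_iff hp.ne_zero |>.1 h8)

include hp hpk in
lemma good_sstep {C C' : Subalgebra k B} (h : SStep p F C C')
    (hG : Good k (isFilt_restr hF C)) (hne : restr F C 1 ≠ ⊥) :
    Good k (isFilt_restr hF C') ∧ restr F C' 1 ≠ ⊥ := by
  obtain ⟨σ, l, h1, hl, h2, h3, h4, h5⟩ := h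
  have hle : C' ≤ C := fun b hb => by
    obtain ⟨h, -⟩ := (h5 b).1 hb
    exact h
  refine ⟨good_fix hp hpk σ h1 (isFilt_restr hF C) hG hl h2 h3 h4 (Subalgebra.inclusion hle)
    (Subalgebra.inclusion_injective hle) ?_ _ fun d c' => Iff.rfl, ?_⟩
  · rintro ⟨b, hb⟩
    constructor
    · intro h
      exact ⟨⟨b, (h5 b).2 ⟨hb, h⟩⟩, rfl⟩
    · rintro ⟨⟨b', hb'⟩, h⟩
      have h6 : b' = b := congrArg Subtype.val h
      subst h6
      obtain ⟨h7, h8⟩ := (h5 b').1 hb'
      exact h8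
  · obtain ⟨a, ha, ha0⟩ := Submodule.exists_mem_ne_zero_of_ne_bot hne
    have hσF : ∀ x ∈ restr F C 1, σ x ∈ restr F C 1 := by
      intro x hx
      have h6 : σ x = x + (σ x - x) := by ring
      rw [h6]
      exact Ideal.add_mem _ hx ((isFilt_restr hF C).anti 1 (1 + l) (by omega) (h2 1 x hx))
    have hnF : nrm σ p a ∈ restr F C 1 := by
      obtain ⟨m, rfl⟩ : ∃ m, p = m + 1 := ⟨p - 1, by have := hp.pos; omega⟩
      rw [nrm_succ']
      exact Ideal.mul_mem_left _ _ ha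
    have hn0 : nrm σ p a ≠ 0 := by
      unfold nrm
      rw [Finset.prod_ne_zero_iff]
      intro i _ h6
      have h7 : ∀ (i : ℕ) (x : C), σ^[i] x = 0 → x = 0 := by
        intro i
        induction i with
        | zero => intro x hx; exact hx
        | succ i ih =>
          intro x hx
          rw [Function.iterate_succ_apply] at hx
          exact (map_eq_zero_iff σ σ.injective).1 (ih _ hx)
      exact ha0 (h7 i a h6)
    have hmem : ((nrm σ p a : C) : B) ∈ C' :=
      (h5 _).2 ⟨(nrm σ p a).2, map_nrm σ p h1 a⟩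
    intro hbot
    have h6 : (⟨((nrm σ p a : C) : B), hmem⟩ : C') ∈ restr F C' 1 := hnF
    rw [hbot, Ideal.mem_bot] at h6
    have h7 : ((nrm σ p a : C) : B) = 0 := congrArg Subtype.val h6
    exact hn0 (Subtype.ext h7)

include hF in
lemma good_top (hG : Good k hF) (hne : F 1 ≠ ⊥) {C : Subalgebra k B} (hC : C = ⊤) :
    Good k (isFilt_restr hF C) ∧ restr F C 1 ≠ ⊥ := by
  subst hC
  refine ⟨good_congr hF hG (Subalgebra.val _) Subtype.val_injective
    (fun b => ⟨⟨b, trivial⟩, rfl⟩) _ fun d c' => Iff.rfl, ?_⟩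
  obtain ⟨a, ha, ha0⟩ := Submodule.exists_mem_ne_zero_of_ne_bot hne
  intro hbot
  have h6 : (⟨a, trivial⟩ : (⊤ : Subalgebra k B)) ∈ restr F ⊤ 1 := ha
  rw [hbot, Ideal.mem_bot] at h6
  exact ha0 (congrArg Subtype.val h6)

/-- The conclusion for a good filtered subalgebra. -/
theorem concl {C : Subalgebra k B} (hG : Good k (isFilt_restr hF C)) (hne : restr F C 1 ≠ ⊥) :
    IsVariety (X := Spec (CommRingCat.of C))
      (Spec.map (CommRingCat.ofHom (algebraMap k C))) ∧
    HasResolution (X := Spec (CommRingCat.of C))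
      (Spec.map (CommRingCat.ofHom (algebraMap k C))) := by
  let L := FractionRing C
  let g : C →ₐ[k] L := IsScalarTower.toAlgHom k C L
  have hinj : Function.Injective g := IsFractionRing.injective C L
  have hGE := (good_iff g _ hinj).1 hG
  have hft := finiteType_goodE g _ hinj hGE
  exact ⟨isVariety_spec, hasResolution_goodE g _ hinj hGE hne⟩

end restr

end Pool.Agent.H519R3.RS
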